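import Pool.Agent.H45Littlewood.Count

/-!
The arithmetic input: many denominators `N` in a dyadic block with a badly approximable `r / N`
and with the window property.
-/

open Finset Filter Topology

namespace Pool.Agent.H45Littlewood

/-- `r / N` is badly approximable -/
def GoodPair (N r : ℕ) : Prop :=
  ∀ x y : ℤ, 1 ≤ |x| → |x| < N → (N : ℤ) ∣ y - r * x → (N : ℤ) ≤ 26 * (|x| * |y|)

/-- every window of length `L` contains a unit `a` with `a r / N` near `y` modulo one -/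
def WindowProp (N r L : ℕ) (η : ℝ) : Prop :=
  ∀ (A : ℤ) (y : ℝ), ∃ a b : ℤ, A ≤ a ∧ a < A + L ∧ IsCoprime a (N : ℤ) ∧ (N : ℤ) ∣ b - r * a ∧
    |(b : ℝ) / N - y| ≤ η

lemma sb_bound {g : ℝ} (hg : 1 < g) : ∃ C : ℝ, 1 ≤ C ∧ ∀ m N : ℕ, 1 ≤ N → N < 2 ^ (8 * m + 2) →
    (sb N : ℝ) ≤ C * g ^ m := by
  obtain ⟨p, hp⟩ := pow_unbounded_of_one_lt (2 ^ 8 : ℝ) hg
  have hp0 : p ≠ 0 := by
    rintro rfl
    norm_num at hp
  refine ⟨4 * Real.exp (8 ^ p), ?_, ?_⟩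
  · have := Real.one_le_exp (x := (8 : ℝ) ^ p) (by positivity)
    linarith
  · intro m N hN hNm
    set ω := N.primeFactors.card with hω
    have h1 : (sb N : ℝ) ≤ 8 ^ ω := by
      have : sb N ≤ 8 ^ ω := by
        rw [sb, ← hω, show (8 : ℕ) = 4 * 2 by norm_num, mul_pow]
        exact Nat.mul_le_mul_left _ (Nat.lt_two_pow_self (n := ω))
      exact_mod_cast this
    have h2 : ω.factorial ≤ N := by
      have h3 := prod_ge_factorial N.primeFactors (fun x hx => (Nat.prime_of_mem_primeFactors hx).pos)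
      exact le_trans h3 (Nat.le_of_dvd hN (Nat.prod_primeFactors_dvd N))
    have h3 : ((8 : ℝ) ^ p) ^ ω ≤ Real.exp (8 ^ p) * ω.factorial := by
      have := Real.pow_div_factorial_le_exp ((8 : ℝ) ^ p) (by positivity) ω
      rwa [div_le_iff₀ (by positivity)] at this
    have hC1 : 1 ≤ 4 * Real.exp ((8 : ℝ) ^ p) := by
      have := Real.one_le_exp (x := (8 : ℝ) ^ p) (by positivity)
      linarith
    have h4 : ((8 : ℝ) ^ ω) ^ p ≤ (4 * Real.exp (8 ^ p) * g ^ m) ^ p := by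
      calc ((8 : ℝ) ^ ω) ^ p = ((8 : ℝ) ^ p) ^ ω := by rw [← pow_mul, ← pow_mul, mul_comm]
        _ ≤ Real.exp (8 ^ p) * ω.factorial := h3
        _ ≤ Real.exp (8 ^ p) * 2 ^ (8 * m + 2) := by
            have : (ω.factorial : ℝ) ≤ 2 ^ (8 * m + 2) := by exact_mod_cast (h2.trans hNm.le)
            gcongr
        _ = 4 * Real.exp (8 ^ p) * (2 ^ 8) ^ m := by
            rw [pow_add, pow_mul]
            ring
        _ ≤ 4 * Real.exp (8 ^ p) * (g ^ p) ^ m := by gcongr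
        _ = 4 * Real.exp (8 ^ p) * (g ^ m) ^ p := by rw [← pow_mul, ← pow_mul, mul_comm p m]
        _ ≤ (4 * Real.exp (8 ^ p)) ^ p * (g ^ m) ^ p := by
            have := le_self_pow₀ hC1 hp0
            gcongr
        _ = _ := by rw [← mul_pow]
    have h5 := le_of_pow_le_pow_left₀ hp0 (by positivity) h4
    linarith

lemma ev_exp (c b : ℝ) (hb : 1 < b) : ∀ᶠ m : ℕ in atTop, c ≤ b ^ m :=
  (tendsto_pow_atTop_atTop_of_one_lt hb).eventually_ge_atTop c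

lemma ev_poly (c b : ℝ) (hb : 1 < b) : ∀ᶠ m : ℕ in atTop, c * (8 * m + 2) ^ 2 ≤ b ^ m := by
  have h1 := tendsto_pow_const_div_const_pow_of_one_lt 2 hb
  have h2 : Tendsto (fun n : ℕ => (100 * |c|) * ((n : ℝ) ^ 2 / b ^ n)) atTop (𝓝 ((100 * |c|) * 0)) :=
    h1.const_mul _
  rw [mul_zero] at h2
  filter_upwards [h2.eventually_le_const (show (0 : ℝ) < 1 by norm_num), eventually_ge_atTop 1]
    with m hm hm1
  have hb0 : 0 < b ^ m := pow_pos (by linarith) m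
  rw [← mul_div_assoc, div_le_one hb0] at hm
  have hm1' : (1 : ℝ) ≤ m := by exact_mod_cast hm1
  have h3 : ((8 : ℝ) * m + 2) ^ 2 ≤ 100 * m ^ 2 := by nlinarith
  calc c * (8 * m + 2) ^ 2 ≤ |c| * (8 * m + 2) ^ 2 :=
        mul_le_mul_of_nonneg_right (le_abs_self c) (by positivity)
    _ ≤ |c| * (100 * m ^ 2) := mul_le_mul_of_nonneg_left h3 (abs_nonneg c)
    _ = 100 * |c| * m ^ 2 := by ring
    _ ≤ b ^ m := hm

theorem arith (κ η : ℝ) (hκ : 0 < κ) (hη : 0 < η) (N0 : ℕ) :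
    ∃ (X L : ℕ) (Ns : Finset ℕ), N0 ≤ X ∧ 1 ≤ X ∧
      (∀ N ∈ Ns, X ≤ N ∧ N < 2 * X ∧ ∃ r : ℕ, GoodPair N r ∧ WindowProp N r L η) ∧
      κ * X * (L + 1) ^ 3 ≤ (Ns.card : ℝ) ^ 2 ∧ κ * (L + 1) ≤ X := by
  obtain ⟨g, hg⟩ : ∃ g : ℝ, g = 1.02 := ⟨_, rfl⟩
  have hg1 : 1 < g := by rw [hg]; norm_num
  have hg0 : 0 < g := by linarith
  obtain ⟨C, hC1, hC⟩ := sb_bound hg1
  obtain ⟨T0, hT0⟩ : ∃ T0 : ℕ, T0 = ⌈2 / η⌉₊ + 12 := ⟨_, rfl⟩
  obtain ⟨K1, hK1⟩ : ∃ K1 : ℝ, K1 = 28 / η + 13 := ⟨_, rfl⟩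
  have hK1pos : 0 < K1 := by rw [hK1]; positivity
  obtain ⟨K0, hK0⟩ : ∃ K0 : ℝ, K0 = 26 * T0 ^ 2 + 2 + 4 * C ^ 2 * K1 := ⟨_, rfl⟩
  have hK0pos : 0 < K0 := by rw [hK0]; positivity
  obtain ⟨m, hm⟩ := ((ev_poly (32 * κ * K0 ^ 3) 1.07 (by norm_num)).and
    ((ev_exp (κ * K0) 1.9 (by norm_num)).and ((ev_exp (K1 * C + 1) 1.9 (by norm_num)).and
      ((ev_exp (T0 + 1) 2 (by norm_num)).and ((ev_exp N0 2 (by norm_num)).and
        (eventually_ge_atTop 1)))))).exists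
  obtain ⟨hma, hmb, hmc, hmd, hme, hm1⟩ := hm
  obtain ⟨i, Ns, hmi, hi8, hNs, hcard⟩ := many m
  have hgm1 : 1 ≤ g ^ m := one_le_pow₀ hg1.le
  have hCg : 1 ≤ C * g ^ m := by nlinarith
  obtain ⟨T1, hT1⟩ : ∃ T1 : ℕ, T1 = ⌈28 * (C * g ^ m) / η⌉₊ + 12 := ⟨_, rfl⟩
  obtain ⟨L, hL⟩ : ∃ L : ℕ, L = 26 * T0 ^ 2 + 2 * ⌈C * g ^ m⌉₊ * T1 + 1 := ⟨_, rfl⟩
  have hT1le : (T1 : ℝ) ≤ K1 * (C * g ^ m) := by
    rw [hT1, hK1]
    push_cast
    have h1 := (Nat.ceil_lt_add_one (show 0 ≤ 28 * (C * g ^ m) / η by positivity)).le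
    have e : 28 * (C * g ^ m) / η = 28 / η * (C * g ^ m) := by ring
    rw [e] at h1 ⊢
    have e2 : (28 / η + 13) * (C * g ^ m) = 28 / η * (C * g ^ m) + 13 * (C * g ^ m) := by ring
    rw [e2]
    linarith
  have hT1ge : 28 * (C * g ^ m) ≤ T1 * η := by
    rw [hT1]
    push_cast
    have h1 := Nat.le_ceil (28 * (C * g ^ m) / η)
    rw [div_le_iff₀ hη] at h1
    nlinarith
  have hLle : (L : ℝ) + 1 ≤ K0 * (g ^ m) ^ 2 := by
    rw [hL, hK0]
    push_cast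
    have h1 := (Nat.ceil_lt_add_one (show 0 ≤ C * g ^ m by positivity)).le
    have h2 : (⌈C * g ^ m⌉₊ : ℝ) ≤ 2 * (C * g ^ m) := by linarith
    have h3 : (⌈C * g ^ m⌉₊ : ℝ) * T1 ≤ 2 * (C * g ^ m) * (K1 * (C * g ^ m)) :=
      mul_le_mul h2 hT1le (by positivity) (by positivity)
    have h4 : (1 : ℝ) ≤ (g ^ m) ^ 2 := one_le_pow₀ hgm1
    have h5 : (26 * (T0 : ℝ) ^ 2 + 2) ≤ (26 * T0 ^ 2 + 2) * (g ^ m) ^ 2 :=
      le_mul_of_one_le_right (by positivity) h4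
    have e1 : 2 * (C * g ^ m) * (K1 * (C * g ^ m)) = 2 * C ^ 2 * K1 * (g ^ m) ^ 2 := by ring
    have e2 : (26 * (T0 : ℝ) ^ 2 + 2 + 4 * C ^ 2 * K1) * (g ^ m) ^ 2
        = (26 * T0 ^ 2 + 2) * (g ^ m) ^ 2 + 4 * C ^ 2 * K1 * (g ^ m) ^ 2 := by ring
    rw [e1] at h3
    rw [e2]
    linarith
  have hX2m : (2 : ℝ) ^ m ≤ 2 ^ i := pow_le_pow_right₀ (by norm_num) hmi
  have h19 : ∀ c : ℝ, c ≤ 1.9 ^ m → c * g ^ (2 * m) ≤ 2 ^ m := by
    intro c hc
    have h1 : (1.9 : ℝ) ^ m * g ^ (2 * m) ≤ 2 ^ m := by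
      rw [pow_mul, ← mul_pow]
      apply pow_le_pow_left₀ (by positivity)
      rw [hg]
      norm_num
    have h2 : 0 ≤ g ^ (2 * m) := by positivity
    nlinarith
  refine ⟨2 ^ i, L, Ns, ?_, Nat.one_le_two_pow, ?_, ?_, ?_⟩
  · have : (N0 : ℝ) ≤ 2 ^ i := le_trans hme hX2m
    exact_mod_cast this
  · intro N hN
    obtain ⟨h1, h2, w, hw, hlen, hwN⟩ := hNs N hN
    refine ⟨h1, h2, (cont w).2, ?_, ?_⟩
    · intro x y hx hxN hxy
      have := good (M := 12) (by norm_num) hw (x := x) (y := y) hx (by rw [hwN]; exact hxN)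
        (by rw [hwN]; exact hxy)
      rw [hwN] at this
      norm_num at this ⊢
      linarith
    · have hsbN : (sb N : ℝ) ≤ C * g ^ m := by
        refine hC m N (by have := Nat.one_le_two_pow (n := i); omega) ?_
        have : 2 * 2 ^ i ≤ 2 ^ (8 * m + 2) := by
          calc 2 * 2 ^ i = 2 ^ (i + 1) := by ring
            _ ≤ 2 ^ (8 * m + 2) := Nat.pow_le_pow_right (by norm_num) (by omega)
        omega
      have hNge : (2 : ℝ) ^ m ≤ N := le_trans hX2m (by exact_mod_cast h1)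
      intro A y
      have hwne : w ≠ [] := by
        rintro rfl
        simp at hlen
        omega
      have hwin := window (M := 12) (by norm_num) hw hwne hη (T0 := T0) (T1 := T1) (by omega) ?_ ?_
        (by omega) ?_ ?_ A y
      · rw [hwN] at hwin
        obtain ⟨a, b, ha1, ha2, hab1, hab2, hab3⟩ := hwin
        refine ⟨a, b, ha1, ?_, hab1, hab2, hab3⟩
        have h3 : sb N ≤ ⌈C * g ^ m⌉₊ := by
          have := le_trans hsbN (Nat.le_ceil (C * g ^ m))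
          exact_mod_cast this
        have h4 : 2 * (12 + 1) * T0 ^ 2 + 2 * sb N * T1 < L := by
          rw [hL]
          have := Nat.mul_le_mul_right T1 (Nat.mul_le_mul_left 2 h3)
          omega
        have h5 : ((2 * (12 + 1) * T0 ^ 2 + 2 * sb N * T1 : ℕ) : ℤ) < L := by exact_mod_cast h4
        linarith
      · rw [hT0]
        push_cast
        have h3 := Nat.le_ceil (2 / η)
        rw [div_le_iff₀ hη] at h3
        nlinarith
      · rw [hwN]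
        have : (T0 : ℝ) < N := by linarith
        exact_mod_cast this
      · rw [hwN]
        norm_num
        linarith
      · rw [hwN]
        have h3 := h19 (K1 * C + 1) hmc
        have h4 : g ^ m ≤ g ^ (2 * m) := pow_le_pow_right₀ hg1.le (by omega)
        have h5 : (0 : ℝ) ≤ K1 * C := by positivity
        have h7 : 0 < g ^ (2 * m) := pow_pos hg0 _
        have h6 : (T1 : ℝ) < N := by
          calc (T1 : ℝ) ≤ K1 * (C * g ^ m) := hT1le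
            _ = (K1 * C) * g ^ m := by ring
            _ ≤ (K1 * C) * g ^ (2 * m) := mul_le_mul_of_nonneg_left h4 h5
            _ < (K1 * C + 1) * g ^ (2 * m) := by linarith
            _ ≤ 2 ^ m := h3
            _ ≤ N := hNge
        exact_mod_cast h6
  · -- main inequality
    have hLpos : (0 : ℝ) ≤ (L : ℝ) + 1 := by positivity
    have h1 : ((L : ℝ) + 1) ^ 3 ≤ (K0 * (g ^ m) ^ 2) ^ 3 := pow_le_pow_left₀ hLpos hLle 3
    have h2 : (1.07 : ℝ) ^ m * (g ^ m) ^ 6 ≤ G ^ (4 * m) := by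
      have h3 : (1.05 : ℝ) ^ (4 * m) ≤ G ^ (4 * m) := pow_le_pow_left₀ (by norm_num) G_ge _
      refine le_trans ?_ h3
      rw [← pow_mul, mul_comm m 6, pow_mul g, ← mul_pow, pow_mul]
      apply pow_le_pow_left₀ (by positivity)
      rw [hg]
      norm_num
    have hpos : (0 : ℝ) < 32 * (8 * m + 2) ^ 2 := by positivity
    have h4 : 32 * (8 * (m : ℝ) + 2) ^ 2 * (κ * 2 ^ i * ((L : ℝ) + 1) ^ 3)
        ≤ 32 * (8 * m + 2) ^ 2 * (Ns.card : ℝ) ^ 2 := by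
      refine le_trans ?_ hcard
      calc 32 * (8 * (m : ℝ) + 2) ^ 2 * (κ * 2 ^ i * ((L : ℝ) + 1) ^ 3)
          ≤ 32 * (8 * (m : ℝ) + 2) ^ 2 * (κ * 2 ^ i * (K0 * (g ^ m) ^ 2) ^ 3) := by gcongr
        _ = 2 ^ i * ((32 * κ * K0 ^ 3 * (8 * m + 2) ^ 2) * (g ^ m) ^ 6) := by ring
        _ ≤ 2 ^ i * (1.07 ^ m * (g ^ m) ^ 6) := by gcongr
        _ ≤ 2 ^ i * G ^ (4 * m) := by gcongr
    push_cast
    exact le_of_mul_le_mul_left h4 hpos
  · have h1 : κ * ((L : ℝ) + 1) ≤ κ * (K0 * (g ^ m) ^ 2) := mul_le_mul_of_nonneg_left hLle hκ.le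
    have h2 := h19 (κ * K0) hmb
    rw [mul_comm 2 m, pow_mul] at h2
    push_cast
    linarith

end Pool.Agent.H45Littlewood
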