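import Pool.Agent.H45Littlewood.Step

/-!
The Cantor set built from `step`.
-/

open Finset Filter Topology

namespace Pool.Agent.H45Littlewood

/-- the data of the Cantor construction -/
structure Data where
  R : ℕ → ℝ
  m : ℕ → ℕ
  c : ∀ k, ℝ → ℝ → Fin (m k) → ℝ × ℝ
  R0 : R 0 = 1
  Rpos : ∀ k, 0 < R k
  Rstep : ∀ k, R (k + 1) ≤ R k / 4
  mpos : ∀ k, 0 < m k
  hmR : ∀ k, 1 ≤ (m k : ℝ) ^ 3 * R (k + 1) ^ 2
  near : ∀ k x y j, |(c k x y j).1 - x| + R (k + 1) ≤ R k ∧ |(c k x y j).2 - y| + R (k + 1) ≤ R k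
  bad : ∀ k x y j ξ ζ, |ξ - (c k x y j).1| ≤ R (k + 1) → |ζ - (c k x y j).2| ≤ R (k + 1) →
    ∃ N, k ≤ N ∧ 2 ≤ N ∧ BadAt N ξ ζ
  sep : ∀ k x y i j, i ≠ j → 4 * R (k + 1) ≤ |(c k x y i).1 - (c k x y j).1|
  count : ∀ k x y z ℓ, R (k + 1) ≤ ℓ →
    (((Finset.univ.filter fun j => |(c k x y j).1 - z| ≤ ℓ).card : ℝ) ≤ 4 * m k * ℓ / R k ∨
      ((Finset.univ.filter fun j => |(c k x y j).1 - z| ≤ ℓ).card : ℝ) ^ 3 ≤ m k ^ 3 * ℓ ^ 2)

theorem exists_data : Nonempty Data := by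
  have h : ∀ (p : {ρ : ℝ // 0 < ρ}) (k : ℕ), ∃ (q : {ρ : ℝ // 0 < ρ}) (m : ℕ), q.1 ≤ p.1 / 4 ∧ 0 < m ∧
    1 ≤ (m : ℝ) ^ 3 * q.1 ^ 2 ∧ ∀ x y : ℝ, ∃ c : Fin m → ℝ × ℝ,
      (∀ j, |(c j).1 - x| + q.1 ≤ p.1 ∧ |(c j).2 - y| + q.1 ≤ p.1) ∧
      (∀ j ξ ζ, |ξ - (c j).1| ≤ q.1 → |ζ - (c j).2| ≤ q.1 → ∃ N, k ≤ N ∧ 2 ≤ N ∧ BadAt N ξ ζ) ∧
      (∀ i j, i ≠ j → 4 * q.1 ≤ |(c i).1 - (c j).1|) ∧
      (∀ z ℓ : ℝ, q.1 ≤ ℓ →
        (((Finset.univ.filter fun j => |(c j).1 - z| ≤ ℓ).card : ℝ) ≤ 4 * m * ℓ / p.1 ∨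
        ((Finset.univ.filter fun j => |(c j).1 - z| ≤ ℓ).card : ℝ) ^ 3 ≤ m ^ 3 * ℓ ^ 2)) := by
    intro p k
    obtain ⟨ρ', m, h1, h2, h3, h4, h5⟩ := step p.1 p.2 k
    exact ⟨⟨ρ', h1⟩, m, h2, h3, h4, h5⟩
  choose q m hq hm hmq hc using h
  choose c hnear hbad hsep hcount using hc
  let P : ℕ → {ρ : ℝ // 0 < ρ} := fun k => Nat.rec ⟨1, one_pos⟩ (fun k p => q p k) k
  have hP : ∀ k, P (k + 1) = q (P k) k := fun k => rfl
  refine ⟨{
    R := fun k => (P k).1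
    m := fun k => m (P k) k
    c := fun k x y => c (P k) k x y
    R0 := rfl
    Rpos := fun k => (P k).2
    Rstep := fun k => hq (P k) k
    mpos := fun k => hm (P k) k
    hmR := fun k => hmq (P k) k
    near := fun k x y j => hnear (P k) k x y j
    bad := fun k x y j ξ ζ => hbad (P k) k x y j ξ ζ
    sep := fun k x y i j => hsep (P k) k x y i j
    count := fun k x y z ℓ => hcount (P k) k x y z ℓ }⟩

namespace Data

variable (D : Data)

/-- the set of addresses -/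
abbrev Om : Type := ∀ k, Fin (D.m k)

/-- the nodes of the construction -/
def node (ω : D.Om) : ℕ → ℝ × ℝ
  | 0 => (0, 0)
  | k + 1 => D.c k (node ω k).1 (node ω k).2 (ω k)

lemma node_succ (ω : D.Om) (k : ℕ) :
    D.node ω (k + 1) = D.c k (D.node ω k).1 (D.node ω k).2 (ω k) := rfl

lemma node_congr {ω ω' : D.Om} : ∀ {k : ℕ}, (∀ i < k, ω i = ω' i) → D.node ω k = D.node ω' k := by
  intro k
  induction k with
  | zero => intro _; rfl
  | succ k ih =>
    intro h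
    rw [node_succ, node_succ, ih (fun i hi => h i (by omega)), h k (by omega)]

lemma R_le (k : ℕ) : D.R k ≤ (1 / 4) ^ k := by
  induction k with
  | zero => simp [D.R0]
  | succ k ih =>
    have := D.Rstep k
    rw [pow_succ]
    linarith

lemma R_anti {i j : ℕ} (h : i ≤ j) : D.R j ≤ D.R i := by
  induction j, h using Nat.le_induction with
  | base => exact le_rfl
  | succ j _ ih =>
    have := D.Rstep j
    have := D.Rpos j
    linarith

lemma R_tendsto : Tendsto D.R atTop (𝓝 0) := by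
  refine squeeze_zero (fun k => (D.Rpos k).le) D.R_le ?_
  exact tendsto_pow_atTop_nhds_zero_of_lt_one (by norm_num) (by norm_num)

lemma node_near (ω : D.Om) (k n : ℕ) :
    |(D.node ω (k + n)).1 - (D.node ω k).1| + D.R (k + n) ≤ D.R k ∧
    |(D.node ω (k + n)).2 - (D.node ω k).2| + D.R (k + n) ≤ D.R k := by
  induction n with
  | zero => simp
  | succ n ih =>
    have h := D.near (k + n) (D.node ω (k + n)).1 (D.node ω (k + n)).2 (ω (k + n))
    rw [← node_succ] at h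
    rw [← add_assoc]
    constructor
    · have := abs_sub_le (D.node ω (k + n + 1)).1 (D.node ω (k + n)).1 (D.node ω k).1
      linarith [h.1, ih.1]
    · have := abs_sub_le (D.node ω (k + n + 1)).2 (D.node ω (k + n)).2 (D.node ω k).2
      linarith [h.2, ih.2]

lemma exists_limit (ω : D.Om) : ∃ p : ℝ × ℝ, ∀ k, |p.1 - (D.node ω k).1| ≤ D.R k ∧
    |p.2 - (D.node ω k).2| ≤ D.R k := by
  have key : ∀ f : ℕ → ℝ, (∀ k n, |f (k + n) - f k| + D.R (k + n) ≤ D.R k) →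
      ∃ a, ∀ k, |a - f k| ≤ D.R k := by
    intro f hf
    have hc : CauchySeq f := by
      refine cauchySeq_of_le_geometric (1 / 4) 1 (by norm_num) ?_
      intro n
      rw [dist_comm, Real.dist_eq, one_mul]
      have := hf n 1
      have := D.Rpos (n + 1)
      have := D.R_le n
      linarith
    obtain ⟨a, ha⟩ := cauchySeq_tendsto_of_complete hc
    refine ⟨a, fun k => ?_⟩
    have ha' : Tendsto (fun n => |f (k + n) - f k|) atTop (𝓝 |a - f k|) := by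
      have h1 : Tendsto (fun n => f (k + n)) atTop (𝓝 a) := by
        have := (tendsto_add_atTop_iff_nat k).2 ha
        simpa [add_comm] using this
      exact (h1.sub_const _).abs
    refine le_of_tendsto ha' (Eventually.of_forall fun n => ?_)
    have := hf k n
    have := D.Rpos (k + n)
    linarith
  obtain ⟨a, ha⟩ := key (fun k => (D.node ω k).1) (fun k n => (D.node_near ω k n).1)
  obtain ⟨b, hb⟩ := key (fun k => (D.node ω k).2) (fun k n => (D.node_near ω k n).2)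
  exact ⟨(a, b), fun k => ⟨ha k, hb k⟩⟩

/-- the limit point with address `ω` -/
noncomputable def pt (ω : D.Om) : ℝ × ℝ := (D.exists_limit ω).choose

lemma pt_near (ω : D.Om) (k : ℕ) : |(D.pt ω).1 - (D.node ω k).1| ≤ D.R k ∧
    |(D.pt ω).2 - (D.node ω k).2| ≤ D.R k := (D.exists_limit ω).choose_spec k

lemma pt_bad (ω : D.Om) (k : ℕ) : ∃ N, k ≤ N ∧ 2 ≤ N ∧ BadAt N (D.pt ω).1 (D.pt ω).2 := by
  have h := D.pt_near ω (k + 1)
  rw [node_succ] at h
  exact D.bad k _ _ (ω k) _ _ h.1 h.2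

lemma pt_sep {ω ω' : D.Om} {k : ℕ} (h : ∀ i < k, ω i = ω' i) (hk : ω k ≠ ω' k) :
    2 * D.R (k + 1) ≤ |(D.pt ω).1 - (D.pt ω').1| := by
  have h1 := (D.pt_near ω (k + 1)).1
  have h2 := (D.pt_near ω' (k + 1)).1
  have h3 := D.sep k (D.node ω k).1 (D.node ω k).2 (ω k) (ω' k) hk
  rw [← node_succ] at h3
  have h4 : D.c k (D.node ω k).1 (D.node ω k).2 (ω' k) = D.node ω' (k + 1) := by
    rw [node_succ, D.node_congr h]
  rw [h4] at h3
  have h5 := abs_sub_le (D.node ω (k + 1)).1 (D.pt ω).1 (D.node ω' (k + 1)).1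
  have h6 := abs_sub_le (D.pt ω).1 (D.pt ω').1 (D.node ω' (k + 1)).1
  rw [abs_sub_comm (D.node ω (k + 1)).1 (D.pt ω).1] at h5
  linarith

lemma prefix_eq {ω ω' : D.Om} {k : ℕ} (h : |(D.pt ω).1 - (D.pt ω').1| < 2 * D.R k) :
    ∀ i < k, ω i = ω' i := by
  intro i
  induction i using Nat.strong_induction_on with
  | _ i ih =>
    intro hi
    by_contra hne
    have h1 := D.pt_sep (fun j hj => ih j hj (by omega)) hne
    have h2 := D.R_anti (show i + 1 ≤ k by omega)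
    linarith

/-- number of cylinders of level `k` -/
def B (k : ℕ) : ℕ := ∏ i ∈ Finset.range k, D.m i

lemma B_pos (k : ℕ) : 0 < D.B k := Finset.prod_pos fun i _ => D.mpos i

lemma B_R (k : ℕ) : 1 ≤ (D.B k : ℝ) ^ 3 * D.R k ^ 2 := by
  cases k with
  | zero => simp [B, D.R0]
  | succ k =>
    have h1 : (1 : ℝ) ≤ D.B k := by exact_mod_cast D.B_pos k
    have h2 := D.hmR k
    have h3 : (D.B (k + 1) : ℝ) = D.B k * D.m k := by
      rw [B, Finset.prod_range_succ, ← B]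
      push_cast
      ring
    rw [h3]
    have h4 : (1 : ℝ) ≤ (D.B k : ℝ) ^ 3 := one_le_pow₀ h1
    calc (1 : ℝ) = 1 * 1 := by ring
      _ ≤ (D.B k : ℝ) ^ 3 * ((D.m k : ℝ) ^ 3 * D.R (k + 1) ^ 2) := mul_le_mul h4 h2 zero_le_one (by positivity)
      _ = _ := by ring

/-- the level of a scale -/
lemma exists_level {t : ℝ} (ht : 0 < t) (ht1 : t < 1) : ∃ k, D.R (k + 1) ≤ t ∧ t < D.R k := by
  have h : ∃ k, D.R k ≤ t := by
    have := D.R_tendsto.eventually (ge_mem_nhds ht)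
    obtain ⟨k, hk⟩ := this.exists
    exact ⟨k, hk⟩
  classical
  have h1 := Nat.find_spec h
  have h2 : Nat.find h ≠ 0 := by
    intro h0
    rw [h0, D.R0] at h1
    linarith
  obtain ⟨k, hk⟩ := Nat.exists_eq_succ_of_ne_zero h2
  refine ⟨k, ?_, ?_⟩
  · rw [hk] at h1
    exact h1
  · have := Nat.find_min h (show k < Nat.find h by omega)
    exact not_le.1 this

end Data

end Pool.Agent.H45Littlewood
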