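import Pool.Agent.H45Littlewood.Window

/-!
Counting continuants.
-/

open Finset

namespace Pool.Agent.H45Littlewood

/-- words of length `n` with letters between `1` and `M` -/
def wordsF (M : ℕ) : ℕ → Finset (List ℕ)
  | 0 => {[]}
  | n + 1 => (Finset.Icc 1 M ×ˢ wordsF M n).image fun p => p.1 :: p.2

lemma mem_wordsF {M n : ℕ} {w : List ℕ} : w ∈ wordsF M n ↔ w.length = n ∧ Letters M w := by
  induction n generalizing w with
  | zero =>
      simp only [wordsF, Finset.mem_singleton]
      constructor
      · rintro rfl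
        exact ⟨rfl, fun a ha => by simp at ha⟩
      · rintro ⟨h, -⟩
        exact List.length_eq_zero_iff.mp h
  | succ n ih =>
      simp only [wordsF, Finset.mem_image, Finset.mem_product, Finset.mem_Icc, Prod.exists, ih]
      constructor
      · rintro ⟨a, l, ⟨⟨ha1, haM⟩, hl, hL⟩, rfl⟩
        refine ⟨by simp [hl], fun b hb => ?_⟩
        rcases List.mem_cons.mp hb with rfl | hb
        · exact ⟨ha1, haM⟩
        · exact hL b hb
      · rintro ⟨h, hL⟩
        cases w with
        | nil => simp at h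
        | cons a l => exact ⟨a, l, ⟨hL.head, by simpa using h, hL.tail⟩, rfl⟩

/-- `φ x = x ^ (-3/2)` -/
noncomputable def phi (x : ℝ) : ℝ := 1 / (x * Real.sqrt x)

lemma phi_mul {x y : ℝ} (hx : 0 ≤ x) : phi (x * y) = phi x * phi y := by
  rw [phi, phi, phi, Real.sqrt_mul hx]
  rw [div_mul_div_comm, one_mul]
  congr 1
  ring

lemma phi_pos {x : ℝ} (hx : 0 < x) : 0 < phi x := by
  have := Real.sqrt_pos.mpr hx
  exact one_div_pos.mpr (mul_pos hx this)

lemma phi_anti {x y : ℝ} (hx : 0 < x) (hxy : x ≤ y) : phi y ≤ phi x := by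
  rw [phi, phi]
  have h1 := Real.sqrt_pos.mpr hx
  have h2 := Real.sqrt_le_sqrt hxy
  apply one_div_le_one_div_of_le (mul_pos hx h1)
  exact mul_le_mul hxy h2 h1.le (by linarith)

/-- the growth constant -/
noncomputable def G : ℝ := ∑ a ∈ (Finset.Icc 1 12 : Finset ℕ), phi ((a : ℝ) + 1)

lemma phi_ge {x q : ℝ} (hx : 0 < x) (hq : 0 < q) (h : x ≤ q ^ 2) : 1 / (x * q) ≤ phi x := by
  rw [phi]
  have h1 : Real.sqrt x ≤ q := by
    rw [Real.sqrt_le_left hq.le]
    exact h
  have h2 := Real.sqrt_pos.mpr hx
  apply one_div_le_one_div_of_le (mul_pos hx h2)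
  exact mul_le_mul_of_nonneg_left h1 hx.le

lemma G_ge : (1.05 : ℝ) ≤ G := by
  have e : G = phi 2 + phi 3 + phi 4 + phi 5 + phi 6 + phi 7 + phi 8 + phi 9 + phi 10 + phi 11
      + phi 12 + phi 13 := by
    rw [G]
    have : Finset.Icc 1 12 = ({1, 2, 3, 4, 5, 6, 7, 8, 9, 10, 11, 12} : Finset ℕ) := by decide
    rw [this]
    simp only [Finset.sum_insert, Finset.mem_insert, Finset.mem_singleton, Finset.sum_singleton,
      Nat.reduceEqDiff, OfNat.one_ne_ofNat, or_self, not_false_eq_true]
    norm_num
    ring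
  rw [e]
  have h2 := phi_ge (x := 2) (q := 1.4143) (by norm_num) (by norm_num) (by norm_num)
  have h3 := phi_ge (x := 3) (q := 1.7321) (by norm_num) (by norm_num) (by norm_num)
  have h4 := phi_ge (x := 4) (q := 2) (by norm_num) (by norm_num) (by norm_num)
  have h5 := phi_ge (x := 5) (q := 2.2361) (by norm_num) (by norm_num) (by norm_num)
  have h6 := phi_ge (x := 6) (q := 2.4495) (by norm_num) (by norm_num) (by norm_num)
  have h7 := phi_ge (x := 7) (q := 2.6458) (by norm_num) (by norm_num) (by norm_num)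
  have h8 := phi_ge (x := 8) (q := 2.8285) (by norm_num) (by norm_num) (by norm_num)
  have h9 := phi_ge (x := 9) (q := 3) (by norm_num) (by norm_num) (by norm_num)
  have h10 := phi_ge (x := 10) (q := 3.1623) (by norm_num) (by norm_num) (by norm_num)
  have h11 := phi_ge (x := 11) (q := 3.3167) (by norm_num) (by norm_num) (by norm_num)
  have h12 := phi_ge (x := 12) (q := 3.4642) (by norm_num) (by norm_num) (by norm_num)
  have h13 := phi_ge (x := 13) (q := 3.6056) (by norm_num) (by norm_num) (by norm_num)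
  norm_num at h2 h3 h4 h5 h6 h7 h8 h9 h10 h11 h12 h13 ⊢
  linarith

lemma cont_le {M : ℕ} (hM : M ≤ 15) {w : List ℕ} (hw : Letters M w) :
    (cont w).1 ≤ 2 ^ (4 * w.length + 1) := by
  induction w with
  | nil => simp [cont]
  | cons a l ih =>
      have h1 := ih hw.tail
      have h2 := cont_lt hw.tail
      have h3 := hw.head
      simp only [cont, List.length_cons]
      have e : 2 ^ (4 * (l.length + 1) + 1) = 16 * 2 ^ (4 * l.length + 1) := by
        rw [show 4 * (l.length + 1) + 1 = 4 + (4 * l.length + 1) by ring, pow_add]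
        norm_num
      rw [e]
      have h4 : a * (cont l).1 ≤ 15 * (cont l).1 := Nat.mul_le_mul_right _ (h3.2.trans hM)
      omega

lemma cont_ge {M : ℕ} (m : ℕ) : ∀ w : List ℕ, Letters M w → w.length = 2 * m →
    2 ^ m ≤ (cont w).1 := by
  induction m with
  | zero =>
      intro w hw _
      have := cont_pos hw
      simp only [pow_zero]
      omega
  | succ m ih =>
      intro w hw hlen
      match w, hw, hlen with
      | a :: b :: l, hw, hlen =>
          have h1 := ih l hw.tail.tail (by simpa [Nat.mul_add] using hlen)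
          have h2 := hw.head
          have h3 := hw.tail.head
          simp only [cont]
          have h4 : (cont l).1 ≤ b * (cont l).1 := Nat.le_mul_of_pos_left _ h3.1
          have h5 : b * (cont l).1 + (cont l).2 ≤ a * (b * (cont l).1 + (cont l).2) :=
            Nat.le_mul_of_pos_left _ h2.1
          rw [pow_succ]
          omega

lemma cont_inj {M : ℕ} : ∀ w w' : List ℕ, Letters M w → Letters M w' → w.length = w'.length →
    cont w = cont w' → w = w' := by
  intro w
  induction w with
  | nil =>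
      intro w' _ _ hlen _
      exact (List.length_eq_zero_iff.mp hlen.symm).symm
  | cons a l ih =>
      intro w' hw hw' hlen h
      match w', hw', hlen, h with
      | a' :: l', hw', hlen, h =>
          simp only [cont, Prod.mk.injEq] at h
          obtain ⟨h1, h2⟩ := h
          have h3 := cont_lt hw.tail
          have h4 := cont_lt hw'.tail
          rw [← h2] at h1 h4
          have h5 : (a * (cont l).1 + (cont l).2) / (cont l).1 = a := by
            rw [mul_comm, Nat.mul_add_div (by omega), Nat.div_eq_of_lt h3.2, add_zero]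
          have h6 : (a' * (cont l).1 + (cont l').2) / (cont l).1 = a' := by
            rw [mul_comm, Nat.mul_add_div (by omega), Nat.div_eq_of_lt h4.2, add_zero]
          rw [h1, h6] at h5
          subst h5
          have h7 : (cont l).2 = (cont l').2 := by omega
          rw [ih l' hw.tail hw'.tail (by simpa using hlen) (Prod.ext h2 h7)]

lemma sum_phi (n : ℕ) : phi 2 * G ^ n ≤ ∑ w ∈ wordsF 12 n, phi ((cont w).1 : ℝ) := by
  induction n with
  | zero => simp [wordsF, cont]
  | succ n ih =>
      have hinj : Set.InjOn (fun p : ℕ × List ℕ => p.1 :: p.2)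
          ((Finset.Icc 1 12 ×ˢ wordsF 12 n : Finset (ℕ × List ℕ)) : Set (ℕ × List ℕ)) := by
        intro p _ q _ h
        simp only [List.cons.injEq] at h
        exact Prod.ext h.1 h.2
      rw [wordsF, Finset.sum_image hinj, Finset.sum_product]
      have hG : 0 ≤ G := by
        have := G_ge
        linarith
      have h1 : ∑ a ∈ (Finset.Icc 1 12 : Finset ℕ), ∑ l ∈ wordsF 12 n, phi ((a : ℝ) + 1) * phi ((cont l).1 : ℝ)
          ≤ ∑ a ∈ (Finset.Icc 1 12 : Finset ℕ), ∑ l ∈ wordsF 12 n, phi ((cont (a :: l)).1 : ℝ) := by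
        refine Finset.sum_le_sum fun a _ => Finset.sum_le_sum fun l hl => ?_
        have hL := (mem_wordsF.mp hl).2
        have h2 := cont_lt hL
        rw [← phi_mul (by positivity)]
        apply phi_anti
        · have : 0 < (cont (a :: l)).1 := by
            simp only [cont]
            omega
          exact_mod_cast this
        · simp only [cont]
          push_cast
          have : ((cont l).2 : ℝ) ≤ (cont l).1 := by exact_mod_cast h2.2.le
          linarith
      refine le_trans ?_ h1
      simp only [← Finset.mul_sum]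
      rw [← Finset.sum_mul, pow_succ, ← G]
      calc phi 2 * (G ^ n * G) = G * (phi 2 * G ^ n) := by ring
        _ ≤ G * ∑ l ∈ wordsF 12 n, phi ((cont l).1 : ℝ) := mul_le_mul_of_nonneg_left ih hG

/-- many distinct denominators in some dyadic block -/
theorem many (m : ℕ) : ∃ (i : ℕ) (Ns : Finset ℕ), m ≤ i ∧ i ≤ 8 * m + 1 ∧
    (∀ N ∈ Ns, 2 ^ i ≤ N ∧ N < 2 * 2 ^ i ∧ ∃ w : List ℕ, Letters 12 w ∧ w.length = 2 * m ∧
      (cont w).1 = N) ∧
    (2 : ℝ) ^ i * G ^ (4 * m) ≤ 32 * (8 * m + 2) ^ 2 * (Ns.card : ℝ) ^ 2 := by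
  classical
  set W := wordsF 12 (2 * m) with hW
  have hlog : ∀ w ∈ W, Nat.log 2 (cont w).1 ∈ Finset.range (8 * m + 2) := by
    intro w hw
    obtain ⟨hlen, hL⟩ := mem_wordsF.mp hw
    have h1 := cont_le (by norm_num) hL
    rw [hlen] at h1
    rw [Finset.mem_range]
    have h2 : Nat.log 2 (cont w).1 ≤ Nat.log 2 (2 ^ (4 * (2 * m) + 1)) := Nat.log_mono_right h1
    rw [Nat.log_pow (by norm_num)] at h2
    omega
  have hsum := sum_phi (2 * m)
  rw [← hW, ← Finset.sum_fiberwise_of_maps_to hlog] at hsum
  set c : ℝ := phi 2 * G ^ (2 * m) / (8 * m + 2) with hc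
  have hpos : (0 : ℝ) < 8 * m + 2 := by positivity
  obtain ⟨i, hi, hic⟩ : ∃ i ∈ Finset.range (8 * m + 2),
      c ≤ ∑ w ∈ W.filter (fun w => Nat.log 2 (cont w).1 = i), phi ((cont w).1 : ℝ) := by
    by_contra hcon
    push Not at hcon
    have h1 := Finset.sum_lt_sum_of_nonempty (by simp) hcon
    rw [Finset.sum_const, Finset.card_range, nsmul_eq_mul, hc] at h1
    push_cast at h1
    rw [mul_div_cancel₀ _ hpos.ne'] at h1
    linarith
  set F := W.filter (fun w => Nat.log 2 (cont w).1 = i) with hF
  have hcpos : 0 < c := by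
    have := G_ge
    have h2 : 0 < phi 2 := phi_pos (by norm_num)
    have h3 : 0 < G := by linarith
    positivity
  have hFmem : ∀ w ∈ F, w.length = 2 * m ∧ Letters 12 w ∧ 2 ^ i ≤ (cont w).1 ∧
      (cont w).1 < 2 * 2 ^ i := by
    intro w hw
    rw [hF, Finset.mem_filter] at hw
    obtain ⟨hlen, hL⟩ := mem_wordsF.mp hw.1
    have hpos := cont_pos hL
    refine ⟨hlen, hL, ?_, ?_⟩
    · rw [← hw.2]
      exact Nat.pow_log_le_self 2 (by omega)
    · rw [← hw.2]
      have := Nat.lt_pow_succ_log_self (b := 2) (by norm_num) (cont w).1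
      rw [Nat.succ_eq_add_one, pow_succ] at this
      omega
  have hFne : F.Nonempty := by
    by_contra hne
    rw [Finset.not_nonempty_iff_eq_empty] at hne
    rw [hne] at hic
    simp at hic
    linarith
  refine ⟨i, F.image fun w => (cont w).1, ?_, ?_, ?_, ?_⟩
  · obtain ⟨w, hw⟩ := hFne
    obtain ⟨hlen, hL, h1, h2⟩ := hFmem w hw
    have h3 := cont_ge m w hL hlen
    have h4 : 2 ^ m < 2 ^ (i + 1) := by
      rw [pow_succ]
      omega
    have := (Nat.pow_lt_pow_iff_right (by norm_num)).mp h4
    omega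
  · have := Finset.mem_range.mp hi
    omega
  · intro N hN
    obtain ⟨w, hw, rfl⟩ := Finset.mem_image.mp hN
    obtain ⟨hlen, hL, h1, h2⟩ := hFmem w hw
    exact ⟨h1, h2, w, hL, hlen, rfl⟩
  · set Ns := F.image fun w => (cont w).1 with hNs
    have hcard : F.card ≤ 2 * 2 ^ i * Ns.card := by
      refine Finset.card_le_mul_card_image F _ fun N hN => ?_
      have h1 : ((F.filter fun w => (cont w).1 = N).image fun w => (cont w).2).card
          = (F.filter fun w => (cont w).1 = N).card := by
        apply Finset.card_image_of_injOn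
        intro w hw w' hw' h
        simp only [Finset.coe_filter, Set.mem_ofPred_eq] at hw hw'
        obtain ⟨hlen, hL, -, -⟩ := hFmem w hw.1
        obtain ⟨hlen', hL', -, -⟩ := hFmem w' hw'.1
        exact cont_inj w w' hL hL' (by rw [hlen, hlen']) (Prod.ext (hw.2.trans hw'.2.symm) h)
      rw [← h1]
      have h2 : ((F.filter fun w => (cont w).1 = N).image fun w => (cont w).2)
          ⊆ Finset.range (2 * 2 ^ i) := by
        intro r hr
        obtain ⟨w, hw, rfl⟩ := Finset.mem_image.mp hr
        rw [Finset.mem_filter] at hw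
        obtain ⟨-, hL, -, h3⟩ := hFmem w hw.1
        have := cont_lt hL
        rw [Finset.mem_range]
        omega
      calc _ ≤ (Finset.range (2 * 2 ^ i)).card := Finset.card_le_card h2
        _ = _ := Finset.card_range _
    have hFc : c ≤ F.card * phi (2 ^ i) := by
      refine le_trans hic ?_
      rw [← nsmul_eq_mul, ← Finset.sum_const]
      refine Finset.sum_le_sum fun w hw => ?_
      obtain ⟨-, -, h1, -⟩ := hFmem w hw
      apply phi_anti (by positivity)
      exact_mod_cast h1
    have hcardR : (F.card : ℝ) ≤ 2 * 2 ^ i * Ns.card := by exact_mod_cast hcard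
    have hX : (0 : ℝ) < 2 ^ i := by positivity
    have hsq : Real.sqrt (2 ^ i) ^ 2 = (2 : ℝ) ^ i := Real.sq_sqrt hX.le
    have hsqpos : 0 < Real.sqrt ((2 : ℝ) ^ i) := Real.sqrt_pos.mpr hX
    have h1 : c ≤ 2 * Ns.card / Real.sqrt (2 ^ i) := by
      have h2 : (F.card : ℝ) * phi (2 ^ i) ≤ 2 * 2 ^ i * Ns.card * phi (2 ^ i) :=
        mul_le_mul_of_nonneg_right hcardR (phi_pos hX).le
      have h3 : 2 * 2 ^ i * (Ns.card : ℝ) * phi (2 ^ i) = 2 * Ns.card / Real.sqrt (2 ^ i) := by
        rw [phi]
        field_simp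
      linarith
    rw [le_div_iff₀ hsqpos, hc, div_mul_eq_mul_div, div_le_iff₀ hpos] at h1
    have h0 : 0 ≤ phi 2 * G ^ (2 * m) * Real.sqrt (2 ^ i) := by
      have := G_ge
      have h2 : 0 < phi 2 := phi_pos (by norm_num)
      have h3 : 0 < G := by linarith
      positivity
    have h4 := mul_self_le_mul_self h0 h1
    have h5 : phi 2 * phi 2 = 1 / 8 := by
      rw [phi, div_mul_div_comm, one_mul]
      congr 1
      have : Real.sqrt 2 * Real.sqrt 2 = 2 := Real.mul_self_sqrt (by norm_num)
      nlinarith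
    have h6 : phi 2 * G ^ (2 * m) * Real.sqrt (2 ^ i) * (phi 2 * G ^ (2 * m) * Real.sqrt (2 ^ i))
        = 1 / 8 * (2 ^ i * G ^ (4 * m)) := by
      calc _ = (phi 2 * phi 2) * (Real.sqrt (2 ^ i) ^ 2) * (G ^ (2 * m) * G ^ (2 * m)) := by ring
        _ = _ := by
          rw [h5, hsq, ← pow_add]
          ring_nf
    rw [h6] at h4
    nlinarith

end Pool.Agent.H45Littlewood
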