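import Pool.Agent.H45Littlewood.Cantor

/-!
The natural measure on the Cantor set, and the lower bound `2/3` for the dimension of its
projection to the first coordinate.
-/

open Finset Filter Topology MeasureTheory
open scoped ENNReal NNReal

namespace Pool.Agent.H45Littlewood

namespace Data

variable (D : Data)

/-- the uniform measure on `Fin (m k)` -/
noncomputable def unif (k : ℕ) : Measure (Fin (D.m k)) := (D.m k : ℝ≥0∞)⁻¹ • Measure.count

lemma unif_apply (k : ℕ) (T : Finset (Fin (D.m k))) :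
    D.unif k (T : Set (Fin (D.m k))) = (D.m k : ℝ≥0∞)⁻¹ * T.card := by
  rw [unif, Measure.smul_apply, Measure.count_apply_finset, smul_eq_mul]

instance (k : ℕ) : IsProbabilityMeasure (D.unif k) := ⟨by
  have h := D.unif_apply k Finset.univ
  rw [Finset.coe_univ] at h
  rw [h, Finset.card_univ, Fintype.card_fin]
  exact ENNReal.inv_mul_cancel (by exact_mod_cast (D.mpos k).ne') (ENNReal.natCast_ne_top _)⟩

/-- the product measure -/
noncomputable def prob : Measure D.Om := Measure.infinitePi D.unif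

instance : IsProbabilityMeasure D.prob := by
  unfold prob
  infer_instance

lemma prob_cyl (k : ℕ) (ω0 : D.Om) (T : Finset (Fin (D.m k))) :
    D.prob {ω | (∀ i < k, ω i = ω0 i) ∧ ω k ∈ T} =
      (D.B k : ℝ≥0∞)⁻¹ * ((D.m k : ℝ≥0∞)⁻¹ * T.card) := by
  classical
  set t : ∀ i, Set (Fin (D.m i)) := Function.update (fun i => {ω0 i}) k (T : Set (Fin (D.m k))) with ht
  have htk : t k = (T : Set (Fin (D.m k))) := by rw [ht, Function.update_self]
  have hti : ∀ i, i ≠ k → t i = {ω0 i} := by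
    intro i hi
    rw [ht, Function.update_of_ne hi]
  have hset : {ω : D.Om | (∀ i < k, ω i = ω0 i) ∧ ω k ∈ T} =
      Set.pi (Finset.range (k + 1) : Set ℕ) t := by
    ext ω
    simp only [Set.mem_pi, Finset.coe_range, Set.mem_Iio]
    constructor
    · rintro ⟨h1, h2⟩ i hi
      by_cases hik : i = k
      · subst hik
        rw [htk]
        exact h2
      · rw [hti i hik]
        exact h1 i (by omega)
    · intro h
      refine ⟨fun i hi => ?_, ?_⟩
      · have := h i (by omega)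
        rw [hti i (by omega)] at this
        exact this
      · have := h k (by omega)
        rw [htk] at this
        exact this
  rw [hset, prob, Measure.infinitePi_pi _ (fun i _ => MeasurableSet.of_discrete), Finset.prod_range_succ,
    htk, unif_apply]
  congr 1
  have h1 : ∀ i ∈ Finset.range k, D.unif i (t i) = (D.m i : ℝ≥0∞)⁻¹ := by
    intro i hi
    rw [hti i (Finset.mem_range.1 hi).ne]
    have := D.unif_apply i {ω0 i}
    rw [Finset.coe_singleton] at this
    rw [this]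
    simp
  rw [Finset.prod_congr rfl h1, B]
  push_cast
  rw [ENNReal.prod_inv_distrib]
  intro i _ j _ _
  left
  exact_mod_cast (D.mpos i).ne'

lemma prob_cyl_real (k : ℕ) (ω0 : D.Om) (T : Finset (Fin (D.m k))) :
    D.prob {ω | (∀ i < k, ω i = ω0 i) ∧ ω k ∈ T} =
      ENNReal.ofReal (T.card / (D.B k * D.m k)) := by
  rw [prob_cyl]
  have hB : (0 : ℝ) < D.B k := by exact_mod_cast D.B_pos k
  have hm : (0 : ℝ) < D.m k := by exact_mod_cast D.mpos k
  have e : (T.card / (D.B k * D.m k) : ℝ) = (D.B k : ℝ)⁻¹ * ((D.m k : ℝ)⁻¹ * T.card) := by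
    field_simp
  rw [e, ENNReal.ofReal_mul (by positivity), ENNReal.ofReal_mul (by positivity),
    ENNReal.ofReal_inv_of_pos hB, ENNReal.ofReal_inv_of_pos hm, ENNReal.ofReal_natCast,
    ENNReal.ofReal_natCast, ENNReal.ofReal_natCast]

lemma prob_le (s : Set ℝ) {t : ℝ} (ht : 0 < t) (ht1 : t < 1)
    (hs : ∀ x ∈ s, ∀ y ∈ s, |x - y| ≤ t) :
    D.prob ((fun ω => (D.pt ω).1) ⁻¹' s) ≤ ENNReal.ofReal (8 * t ^ (2 / 3 : ℝ)) := by
  classical
  by_cases hne : ∃ ω0 : D.Om, (D.pt ω0).1 ∈ s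
  swap
  · have : (fun ω : D.Om => (D.pt ω).1) ⁻¹' s = ∅ := by
      ext ω
      simp only [Set.mem_preimage, Set.mem_empty_iff_false, iff_false]
      exact fun h => hne ⟨ω, h⟩
    rw [this, measure_empty]
    exact zero_le
  obtain ⟨ω0, hω0⟩ := hne
  obtain ⟨k, hk1, hk2⟩ := D.exists_level ht ht1
  set x := (D.node ω0 k).1
  set y := (D.node ω0 k).2
  set z := (D.pt ω0).1
  set ℓ := t + D.R (k + 1) with hℓ
  have hRpos := D.Rpos (k + 1)
  have hRk := D.Rpos k
  set T := Finset.univ.filter fun j => |(D.c k x y j).1 - z| ≤ ℓ with hT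
  have hsub : (fun ω : D.Om => (D.pt ω).1) ⁻¹' s ⊆ {ω | (∀ i < k, ω i = ω0 i) ∧ ω k ∈ T} := by
    intro ω hω
    have h1 : |(D.pt ω).1 - (D.pt ω0).1| ≤ t := hs _ hω _ hω0
    have h2 : ∀ i < k, ω i = ω0 i := D.prefix_eq (by linarith)
    refine ⟨h2, ?_⟩
    rw [hT, Finset.mem_filter]
    refine ⟨Finset.mem_univ _, ?_⟩
    have h3 := (D.pt_near ω (k + 1)).1
    have h4 : D.node ω (k + 1) = D.c k x y (ω k) := by
      rw [node_succ, D.node_congr h2]
    rw [h4] at h3
    have h5 := abs_sub_le (D.c k x y (ω k)).1 (D.pt ω).1 z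
    rw [abs_sub_comm (D.c k x y (ω k)).1 (D.pt ω).1] at h5
    linarith
  refine le_trans (measure_mono hsub) ?_
  rw [prob_cyl_real]
  apply ENNReal.ofReal_le_ofReal
  have hB : (0 : ℝ) < D.B k := by exact_mod_cast D.B_pos k
  have hm : (0 : ℝ) < D.m k := by exact_mod_cast D.mpos k
  have hBR := D.B_R k
  have hcube : (T.card / (D.B k * D.m k) : ℝ) ^ 3 ≤ 512 * t ^ 2 := by
    rw [div_pow, div_le_iff₀ (by positivity)]
    have hℓ2 : ℓ ≤ 2 * t := by rw [hℓ]; linarith
    have hℓ0 : 0 < ℓ := by rw [hℓ]; linarith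
    rcases D.count k x y z ℓ (by rw [hℓ]; linarith) with h | h
    · rw [← hT] at h
      have h1 : (T.card : ℝ) ≤ 8 * D.m k * t / D.R k := by
        refine h.trans ?_
        gcongr ?_ / D.R k
        nlinarith
      calc (T.card : ℝ) ^ 3 ≤ (8 * D.m k * t / D.R k) ^ 3 := by gcongr
        _ = 512 * (D.m k : ℝ) ^ 3 * t ^ 2 * (t / D.R k) * (1 / D.R k ^ 2) := by
          field_simp
          ring
        _ ≤ 512 * (D.m k : ℝ) ^ 3 * t ^ 2 * 1 * (D.B k : ℝ) ^ 3 := by
          gcongr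
          · rw [div_le_one hRk]
            exact hk2.le
          · rw [div_le_iff₀ (by positivity)]
            exact hBR
        _ = _ := by ring
    · rw [← hT] at h
      have h1 : ℓ ^ 2 ≤ 4 * t ^ 2 := by nlinarith
      have hB1 : (1 : ℝ) ≤ (D.B k : ℝ) ^ 3 := one_le_pow₀ (by exact_mod_cast D.B_pos k)
      calc (T.card : ℝ) ^ 3 ≤ (D.m k : ℝ) ^ 3 * ℓ ^ 2 := h
        _ ≤ (D.m k : ℝ) ^ 3 * (4 * t ^ 2) * 1 := by rw [mul_one]; gcongr
        _ ≤ (D.m k : ℝ) ^ 3 * (512 * t ^ 2) * (D.B k : ℝ) ^ 3 := by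
          gcongr
          norm_num
        _ = _ := by ring
  have h8 : (8 * t ^ (2 / 3 : ℝ)) ^ 3 = 512 * t ^ 2 := by
    rw [mul_pow, ← Real.rpow_natCast (t ^ (2 / 3 : ℝ)) 3, ← Real.rpow_mul ht.le]
    norm_num
  rw [← h8] at hcube
  exact (pow_le_pow_iff_left₀ (by positivity) (by positivity) (by norm_num)).1 hcube

theorem dim_ge : (2 / 3 : ℝ≥0∞) ≤ dimH (Set.range fun ω : D.Om => (D.pt ω).1) := by
  set f : D.Om → ℝ := fun ω => (D.pt ω).1 with hf
  set ν : OuterMeasure ℝ := (8 : ℝ≥0∞)⁻¹ • OuterMeasure.map f D.prob.toOuterMeasure with hν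
  have hνs : ∀ s, ν s = (8 : ℝ≥0∞)⁻¹ * D.prob (f ⁻¹' s) := fun s => rfl
  have hle : ν ≤ OuterMeasure.mkMetric (fun r : ℝ≥0∞ => r ^ (2 / 3 : ℝ)) := by
    refine OuterMeasure.le_mkMetric _ _ (1 / 2) (by norm_num) ?_
    intro s hs
    rw [hνs]
    have hfin : Metric.ediam s ≠ ⊤ := ne_top_of_le_ne_top (by norm_num) hs
    have hdist : ∀ t : ℝ, (Metric.ediam s).toReal ≤ t → ∀ x ∈ s, ∀ y ∈ s, |x - y| ≤ t := by
      intro t ht x hx y hy
      have h1 := Metric.edist_le_ediam_of_mem hx hy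
      rw [edist_dist] at h1
      have h2 := (ENNReal.ofReal_le_iff_le_toReal hfin).1 h1
      rw [Real.dist_eq] at h2
      linarith
    have hhalf : (Metric.ediam s).toReal ≤ 1 / 2 := by
      have := ENNReal.toReal_mono (by norm_num) hs
      simpa using this
    have h8 : (8 : ℝ≥0∞)⁻¹ * 8 = 1 := ENNReal.inv_mul_cancel (by norm_num) (by norm_num)
    have hbound : ∀ t : ℝ, 0 < t → t < 1 → (Metric.ediam s).toReal ≤ t →
        (8 : ℝ≥0∞)⁻¹ * D.prob (f ⁻¹' s) ≤ ENNReal.ofReal (t ^ (2 / 3 : ℝ)) := by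
      intro t ht ht1 hst
      have h1 := D.prob_le s ht ht1 (hdist t hst)
      calc (8 : ℝ≥0∞)⁻¹ * D.prob (f ⁻¹' s) ≤ (8 : ℝ≥0∞)⁻¹ * ENNReal.ofReal (8 * t ^ (2 / 3 : ℝ)) := by
            gcongr
        _ = ENNReal.ofReal (t ^ (2 / 3 : ℝ)) := by
            rw [ENNReal.ofReal_mul (by norm_num), ← mul_assoc, ENNReal.ofReal_ofNat, h8, one_mul]
    rcases (ENNReal.toReal_nonneg (a := Metric.ediam s)).eq_or_lt with h0 | h0
    · -- diameter zero
      have hz : (8 : ℝ≥0∞)⁻¹ * D.prob (f ⁻¹' s) ≤ 0 := by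
        have htend : Tendsto (fun n : ℕ => ENNReal.ofReal (((1 / 2 : ℝ) ^ (n + 1)) ^ (2 / 3 : ℝ))) atTop
            (𝓝 0) := by
          have h1 : Tendsto (fun n : ℕ => ((1 / 2 : ℝ) ^ (n + 1))) atTop (𝓝 0) := by
            have := tendsto_pow_atTop_nhds_zero_of_lt_one (r := (1 / 2 : ℝ)) (by norm_num) (by norm_num)
            exact (tendsto_add_atTop_iff_nat 1).2 this
          have h2 : Tendsto (fun n : ℕ => (((1 / 2 : ℝ) ^ (n + 1)) ^ (2 / 3 : ℝ))) atTop (𝓝 0) := by
            have := h1.rpow_const (p := (2 / 3 : ℝ)) (Or.inr (by norm_num))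
            rwa [Real.zero_rpow (by norm_num)] at this
          have h3 := (ENNReal.continuous_ofReal.tendsto 0).comp h2
          rwa [ENNReal.ofReal_zero] at h3
        refine ge_of_tendsto htend (Eventually.of_forall fun n => ?_)
        refine hbound _ (by positivity) ?_ ?_
        · exact pow_lt_one₀ (by norm_num) (by norm_num) (by omega)
        · rw [← h0]
          positivity
      exact hz.trans zero_le
    · have h1 := hbound _ h0 (by linarith) le_rfl
      rw [← ENNReal.ofReal_rpow_of_nonneg h0.le (by norm_num), ENNReal.ofReal_toReal hfin] at h1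
      exact h1
  have hpos : μH[((2 / 3 : ℝ≥0) : ℝ)] (Set.range f) ≠ 0 := by
    have h1 := hle (Set.range f)
    rw [hνs, Set.preimage_range, measure_univ, mul_one, OuterMeasure.coe_mkMetric] at h1
    intro h0
    rw [Measure.hausdorffMeasure] at h0
    have e : ((2 / 3 : ℝ≥0) : ℝ) = 2 / 3 := by norm_num
    rw [e] at h0
    rw [h0] at h1
    simp at h1
  have := le_dimH_of_hausdorffMeasure_ne_zero hpos
  have e : ((2 / 3 : ℝ≥0) : ℝ≥0∞) = 2 / 3 := by
    rw [ENNReal.coe_div (by norm_num)]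
    norm_num
  rwa [e] at this

end Data

theorem exists_cantor : ∃ S : Set (ℝ × ℝ),
    (∀ p ∈ S, ∀ k : ℕ, ∃ N, k ≤ N ∧ 2 ≤ N ∧ BadAt N p.1 p.2) ∧
    (2 / 3 : ℝ≥0∞) ≤ dimH (Prod.fst '' S) := by
  obtain ⟨D⟩ := exists_data
  refine ⟨Set.range D.pt, ?_, ?_⟩
  · rintro _ ⟨ω, rfl⟩ k
    exact D.pt_bad ω k
  · rw [← Set.range_comp]
    exact D.dim_ge

end Pool.Agent.H45Littlewood
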