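import Mathlib

/-!
A crude sieve lemma: few residue classes modulo primes can be avoided by a small integer.
-/

open Finset

namespace Pool.Agent.H45Littlewood

lemma prod_ge_factorial (S : Finset ℕ) (hS : ∀ x ∈ S, 0 < x) : S.card.factorial ≤ ∏ x ∈ S, x := by
  induction S using Finset.strongInduction with
  | H S ih =>
      rcases S.eq_empty_or_nonempty with rfl | hne
      · simp
      · set m := S.max' hne with hm
        have hmS : m ∈ S := S.max'_mem hne
        have hcard : S.card ≤ m := by
          have : S ⊆ Finset.Icc 1 m := by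
            intro x hx
            rw [Finset.mem_Icc]
            exact ⟨hS x hx, S.le_max' x hx⟩
          simpa using Finset.card_le_card this
        have h1 := ih (S.erase m) (Finset.erase_ssubset hmS)
          (fun x hx => hS x (Finset.mem_of_mem_erase hx))
        rw [← Finset.mul_prod_erase S (fun x => x) hmS]
        rw [Finset.card_erase_of_mem hmS] at h1
        have hpos : 0 < S.card := Finset.card_pos.mpr hne
        obtain ⟨c, hc⟩ : ∃ c, S.card = c + 1 := ⟨S.card - 1, by omega⟩
        rw [hc] at h1 hcard ⊢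
        simp only [Nat.add_sub_cancel] at h1
        rw [Nat.factorial_succ]
        exact Nat.mul_le_mul hcard h1

/-- one can avoid one residue class modulo each prime in `P` by a small nonnegative integer -/
theorem sieve (P : Finset ℕ) (hP : ∀ p ∈ P, p.Prime) (b : ℕ → ℤ) :
    ∃ t : ℕ, t < 4 ^ P.card * (P.card + 1) ∧ ∀ p ∈ P, ¬ (p : ℤ) ∣ (t : ℤ) - b p := by
  classical
  set w := P.card with hw
  set P1 := P.filter (fun p => p ≤ w) with hP1
  set P2 := P.filter (fun p => ¬ p ≤ w) with hP2
  -- residues for the small primes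
  let a : ℕ → ℕ := fun p => ((b p + 1) % p).toNat
  have hs : ∀ i ∈ P1, (fun p : ℕ => p) i ≠ 0 := fun i hi =>
    (hP i (Finset.mem_of_mem_filter i hi)).ne_zero
  have pp : Set.Pairwise (P1 : Set ℕ) (Function.onFun Nat.Coprime (fun p : ℕ => p)) := by
    intro i hi j hj hij
    exact (Nat.coprime_primes (hP i (Finset.mem_of_mem_filter i hi))
      (hP j (Finset.mem_of_mem_filter j hj))).mpr hij
  obtain ⟨t1, ht1⟩ := Nat.chineseRemainderOfFinset a (fun p : ℕ => p) P1 hs pp
  set m := ∏ p ∈ P1, p with hm
  have hmpos : 0 < m := Finset.prod_pos fun p hp => (hP p (Finset.mem_of_mem_filter p hp)).pos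
  have hm4 : m ≤ 4 ^ w := by
    refine le_trans ?_ (primorial_le_four_pow w)
    rw [primorial, hm]
    refine Finset.prod_le_prod_of_subset_of_one_le' ?_ ?_
    · intro p hp
      rw [Finset.mem_filter] at hp
      rw [Finset.mem_filter, Finset.mem_range]
      exact ⟨by omega, hP p hp.1⟩
    · intro p hp _
      exact (Finset.mem_filter.mp hp).2.one_lt.le
  set t0 := t1 % m with ht0
  have ht0m : t0 < m := Nat.mod_lt _ hmpos
  have ht0' : ∀ p ∈ P1, (p : ℤ) ∣ (t0 : ℤ) - (b p + 1) := by
    intro p hp
    have hpm : p ∣ m := Finset.dvd_prod_of_mem _ hp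
    have hp0 : (p : ℤ) ≠ 0 := by
      have := (hP p (Finset.mem_of_mem_filter p hp)).ne_zero
      exact_mod_cast this
    have h1 : (t1 : ℤ) ≡ (a p : ℤ) [ZMOD p] := (Int.natCast_modEq_iff).mpr (ht1 p hp)
    have h2 : (a p : ℤ) = (b p + 1) % p := Int.toNat_of_nonneg (Int.emod_nonneg _ hp0)
    have h3 : (t0 : ℤ) ≡ (t1 : ℤ) [ZMOD p] := by
      have h4 : (t0 : ℤ) ≡ (t1 : ℤ) [ZMOD m] := by
        rw [ht0]
        push_cast
        exact Int.mod_modEq _ _
      exact h4.of_dvd (by exact_mod_cast hpm)
    have h5 : (t0 : ℤ) ≡ b p + 1 [ZMOD p] := by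
      refine h3.trans (h1.trans ?_)
      rw [h2]
      exact Int.mod_modEq _ _
    exact h5.symm.dvd
  -- large primes
  have hbad : (P2.biUnion fun p => (Finset.range (w + 1)).filter
      fun k => (p : ℤ) ∣ ((t0 + m * k : ℕ) : ℤ) - b p).card ≤ w := by
    calc _ ≤ ∑ p ∈ P2, ((Finset.range (w + 1)).filter
        fun k => (p : ℤ) ∣ ((t0 + m * k : ℕ) : ℤ) - b p).card := Finset.card_biUnion_le
      _ ≤ ∑ p ∈ P2, 1 := by
          refine Finset.sum_le_sum fun p hp => ?_
          rw [Finset.card_le_one]
          intro k hk l hl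
          rw [Finset.mem_filter, Finset.mem_range] at hk hl
          rw [Finset.mem_filter] at hp
          have hprime := hP p hp.1
          have hcop : Nat.Coprime p m := by
            rw [hm]
            refine Nat.Coprime.prod_right fun q hq => ?_
            refine (Nat.coprime_primes hprime (hP q (Finset.mem_of_mem_filter q hq))).mpr ?_
            rintro rfl
            exact hp.2 (Finset.mem_filter.mp hq).2
          have h1 : (p : ℤ) ∣ (m : ℤ) * ((k : ℤ) - l) := by
            have h0 := dvd_sub hk.2 hl.2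
            have e : (m : ℤ) * ((k : ℤ) - l) = (((t0 + m * k : ℕ) : ℤ) - b p)
                - (((t0 + m * l : ℕ) : ℤ) - b p) := by
              push_cast
              ring
            rw [e]
            exact h0
          have h2 : (p : ℤ) ∣ (k : ℤ) - l :=
            (Nat.isCoprime_iff_coprime.mpr hcop).dvd_of_dvd_mul_left h1
          have h3 : |(k : ℤ) - l| < p := by
            rw [abs_lt]
            omega
          have h4 := Int.eq_zero_of_abs_lt_dvd h2 h3
          omega
      _ = P2.card := by simp
      _ ≤ w := Finset.card_filter_le _ _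
  have hex : ∃ k ∈ Finset.range (w + 1), k ∉ (P2.biUnion fun p => (Finset.range (w + 1)).filter
      fun k => (p : ℤ) ∣ ((t0 + m * k : ℕ) : ℤ) - b p) := by
    by_contra hcon
    push Not at hcon
    have := Finset.card_le_card (fun k hk => hcon k hk)
    rw [Finset.card_range] at this
    omega
  obtain ⟨k, hk, hk'⟩ := hex
  rw [Finset.mem_range] at hk
  refine ⟨t0 + m * k, ?_, ?_⟩
  · calc t0 + m * k < m + m * k := by omega
      _ = m * (k + 1) := by ring
      _ ≤ 4 ^ w * (w + 1) := Nat.mul_le_mul hm4 (by omega)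
  · intro p hp hdvd
    by_cases hpw : p ≤ w
    · have hp1 : p ∈ P1 := Finset.mem_filter.mpr ⟨hp, hpw⟩
      have h1 := ht0' p hp1
      have hpm : (p : ℤ) ∣ (m : ℤ) * k := by
        have : p ∣ m := Finset.dvd_prod_of_mem _ hp1
        exact Dvd.dvd.mul_right (by exact_mod_cast this) _
      have h2 : (p : ℤ) ∣ 1 := by
        have h3 := dvd_sub (dvd_sub hdvd hpm) h1
        have e : (1 : ℤ) = ((t0 + m * k : ℕ) : ℤ) - b p - (m : ℤ) * k - ((t0 : ℤ) - (b p + 1)) := by
          push_cast
          ring
        rw [e]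
        exact h3
      have h4 := (hP p hp).one_lt
      have h5 := Int.le_of_dvd one_pos h2
      omega
    · apply hk'
      rw [Finset.mem_biUnion]
      refine ⟨p, Finset.mem_filter.mpr ⟨hp, hpw⟩, ?_⟩
      rw [Finset.mem_filter, Finset.mem_range]
      exact ⟨hk, hdvd⟩

end Pool.Agent.H45Littlewood
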