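import Pool.Agent.H45Littlewood.Arith

/-!
One step of the Cantor construction.
-/

open Finset

namespace Pool.Agent.H45Littlewood

/-- `(ξ, ζ)` is badly approximable (multiplicatively) up to `N` -/
def BadAt (N : ℕ) (ξ ζ : ℝ) : Prop :=
  ∀ q : ℕ, 1 ≤ q → q < N →
    (1 / 30 : ℝ) / N ≤ |q * ξ - round (q * ξ)| * |q * ζ - round (q * ζ)|

lemma perturb {N r : ℕ} (hN : 1 ≤ N) (hg : GoodPair N r) {a b : ℤ} (hab : IsCoprime a (N : ℤ))
    (hb : (N : ℤ) ∣ b - r * a) {ξ ζ : ℝ} (hξ : |ξ - a / N| ≤ 1 / (16 * N ^ 2))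
    (hζ : |ζ - b / N| ≤ 1 / (16 * N ^ 2)) : BadAt N ξ ζ := by
  intro q hq hqN
  have hNR : (0 : ℝ) < N := by exact_mod_cast hN
  have hqR : (q : ℝ) ≤ N := by exact_mod_cast hqN.le
  have hq0 : (0 : ℝ) ≤ q := by positivity
  set k := round (q * ξ) with hk
  set l := round (q * ζ) with hl
  set X0 : ℤ := q * a - N * k with hX0
  set Y0 : ℤ := q * b - N * l with hY0
  have e1 : (q : ℝ) * ξ - k = X0 / N + q * (ξ - a / N) := by
    rw [hX0]
    push_cast
    field_simp
    ring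
  have e2 : (q : ℝ) * ζ - l = Y0 / N + q * (ζ - b / N) := by
    rw [hY0]
    push_cast
    field_simp
    ring
  have hsmall : ∀ t : ℝ, |t| ≤ 1 / (16 * N ^ 2) → |q * t| ≤ 1 / 16 / N := by
    intro t ht
    rw [abs_mul, Nat.abs_cast]
    calc (q : ℝ) * |t| ≤ N * (1 / (16 * N ^ 2)) := mul_le_mul hqR ht (abs_nonneg _) hNR.le
      _ = 1 / 16 / N := by field_simp
  have h1 := hsmall _ hξ
  have h2 := hsmall _ hζ
  have hX0ne : X0 ≠ 0 := by
    intro h0
    have h3 : (N : ℤ) ∣ a * q := ⟨k, by rw [hX0] at h0; linarith⟩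
    have h4 : (N : ℤ) ∣ q := hab.symm.dvd_of_dvd_mul_left h3
    have h5 := Int.le_of_dvd (by exact_mod_cast hq) h4
    have h6 : (N : ℤ) ≤ q := h5
    omega
  have hX1 : 1 ≤ |X0| := Int.one_le_abs hX0ne
  have hX0lt : |X0| < N := by
    have h3 : |(q : ℝ) * ξ - k| ≤ 1 / 2 := abs_sub_round _
    have h4 : |(X0 : ℝ) / N| ≤ 1 / 2 + 1 / 16 / N := by
      have : (X0 : ℝ) / N = (q * ξ - k) - q * (ξ - a / N) := by rw [e1]; ring
      rw [this]
      calc _ ≤ |(q : ℝ) * ξ - k| + |q * (ξ - a / N)| := abs_sub _ _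
        _ ≤ _ := add_le_add h3 h1
    have h5 : (1 : ℝ) / 16 / N ≤ 1 / 16 := by
      apply div_le_self (by norm_num)
      exact_mod_cast hN
    rw [abs_div, abs_of_pos hNR, div_le_iff₀ hNR] at h4
    have h6 : |(X0 : ℝ)| < N := by nlinarith
    exact_mod_cast h6
  have hdvd : (N : ℤ) ∣ Y0 - r * X0 := by
    have : Y0 - r * X0 = q * (b - r * a) + N * (r * k - l) := by
      rw [hX0, hY0]
      ring
    rw [this]
    exact dvd_add (Dvd.dvd.mul_left hb _) (dvd_mul_right _ _)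
  have hgood := hg X0 Y0 hX1 hX0lt hdvd
  have hY1 : 1 ≤ |Y0| := by
    apply Int.one_le_abs
    intro h0
    rw [h0] at hgood
    simp at hgood
    omega
  have hlow : ∀ (Z : ℤ) (t v : ℝ), 1 ≤ |Z| → v = Z / N + t → |t| ≤ 1 / 16 / N →
      15 / 16 * (|(Z : ℝ)| / N) ≤ |v| := by
    intro Z t v hZ hv ht
    have h3 : |(Z : ℝ) / N| ≤ |v| + |t| := by
      have : (Z : ℝ) / N = v - t := by rw [hv]; ring
      rw [this]
      exact abs_sub _ _
    rw [abs_div, abs_of_pos hNR] at h3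
    have h4 : (1 : ℝ) ≤ |(Z : ℝ)| := by exact_mod_cast hZ
    have h5 : 1 / 16 / (N : ℝ) ≤ 1 / 16 * (|(Z : ℝ)| / N) := by
      rw [← mul_div_assoc]
      apply div_le_div_of_nonneg_right _ hNR.le
      linarith
    linarith
  have h3 := hlow X0 _ _ hX1 e1 h1
  have h4 := hlow Y0 _ _ hY1 e2 h2
  have hgoodR : (N : ℝ) ≤ 26 * (|(X0 : ℝ)| * |(Y0 : ℝ)|) := by exact_mod_cast hgood
  calc (1 / 30 : ℝ) / N ≤ (15 / 16 * (|(X0 : ℝ)| / N)) * (15 / 16 * (|(Y0 : ℝ)| / N)) := by
        have e : (15 / 16 * (|(X0 : ℝ)| / N)) * (15 / 16 * (|(Y0 : ℝ)| / N))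
            = 225 / 256 * (|(X0 : ℝ)| * |(Y0 : ℝ)|) / N / N := by
          field_simp
          ring
        rw [e]
        apply div_le_div_of_nonneg_right _ hNR.le
        rw [le_div_iff₀ hNR]
        linarith
    _ ≤ _ := mul_le_mul h3 h4 (by positivity) (abs_nonneg _)

/-- counting separated points in an interval -/
lemma card_sep {ι : Type*} (S : Finset ι) (f : ι → ℝ) {A B δ : ℝ} (hδ : 0 < δ)
    (hsep : ∀ i ∈ S, ∀ j ∈ S, i ≠ j → δ ≤ |f i - f j|) (hA : ∀ i ∈ S, A ≤ f i)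
    (hB : ∀ i ∈ S, f i ≤ B) (hAB : A ≤ B) : (S.card : ℝ) ≤ (B - A) / δ + 1 := by
  have hinj : Set.InjOn (fun i => ⌊(f i - A) / δ⌋₊) (S : Set ι) := by
    intro i hi j hj hij
    by_contra hne
    have h1 := hsep i hi j hj hne
    have h0i : 0 ≤ (f i - A) / δ := div_nonneg (sub_nonneg.mpr (hA i hi)) hδ.le
    have h0j : 0 ≤ (f j - A) / δ := div_nonneg (sub_nonneg.mpr (hA j hj)) hδ.le
    simp only at hij
    have h2 := Nat.floor_le h0i
    have h3 := Nat.lt_floor_add_one ((f i - A) / δ)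
    have h4 := Nat.floor_le h0j
    have h5 := Nat.lt_floor_add_one ((f j - A) / δ)
    rw [hij] at h2 h3
    rw [le_div_iff₀ hδ] at h2 h4
    rw [div_lt_iff₀ hδ] at h3 h5
    have h6 : |f i - f j| < δ := by
      rw [abs_lt]
      constructor <;> linarith
    linarith
  have hmaps : Set.MapsTo (fun i => ⌊(f i - A) / δ⌋₊) (S : Set ι)
      (Finset.range (⌊(B - A) / δ⌋₊ + 1) : Set ℕ) := by
    intro i hi
    simp only [Finset.coe_range, Set.mem_Iio]
    have : (f i - A) / δ ≤ (B - A) / δ := by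
      apply div_le_div_of_nonneg_right _ hδ.le
      linarith [hB i hi]
    have := Nat.floor_le_floor this
    omega
  have h1 := Finset.card_le_card_of_injOn _ hmaps hinj
  rw [Finset.card_range] at h1
  have h2 : (S.card : ℝ) ≤ ⌊(B - A) / δ⌋₊ + 1 := by exact_mod_cast h1
  have h3 := Nat.floor_le (show 0 ≤ (B - A) / δ from div_nonneg (by linarith) hδ.le)
  linarith

set_option maxHeartbeats 4000000 in
theorem step (ρ : ℝ) (hρ : 0 < ρ) (N0 : ℕ) : ∃ (ρ' : ℝ) (m : ℕ), 0 < ρ' ∧ ρ' ≤ ρ / 4 ∧ 0 < m ∧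
    1 ≤ (m : ℝ) ^ 3 * ρ' ^ 2 ∧ ∀ x y : ℝ, ∃ c : Fin m → ℝ × ℝ,
      (∀ j, |(c j).1 - x| + ρ' ≤ ρ ∧ |(c j).2 - y| + ρ' ≤ ρ) ∧
      (∀ j ξ ζ, |ξ - (c j).1| ≤ ρ' → |ζ - (c j).2| ≤ ρ' → ∃ N, N0 ≤ N ∧ 2 ≤ N ∧ BadAt N ξ ζ) ∧
      (∀ i j, i ≠ j → 4 * ρ' ≤ |(c i).1 - (c j).1|) ∧
      (∀ z ℓ : ℝ, ρ' ≤ ℓ →
        (((Finset.univ.filter fun j => |(c j).1 - z| ≤ ℓ).card : ℝ) ≤ 4 * m * ℓ / ρ ∨
        ((Finset.univ.filter fun j => |(c j).1 - z| ≤ ℓ).card : ℝ) ^ 3 ≤ m ^ 3 * ℓ ^ 2)) := by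
  classical
  obtain ⟨X, L, Ns, hX0, hX1, hNs, hmain, hXL⟩ := arith (max (294912 / ρ ^ 3) (2 / ρ)) (ρ / 4)
    (lt_max_of_lt_left (by positivity)) (by positivity) (max N0 2)
  have hXR : (1 : ℝ) ≤ X := by exact_mod_cast hX1
  have hXpos : (0 : ℝ) < X := by linarith
  have hLpos : (0 : ℝ) < (L : ℝ) + 1 := by positivity
  have hmain' : 294912 / ρ ^ 3 * X * ((L : ℝ) + 1) ^ 3 ≤ (Ns.card : ℝ) ^ 2 := by
    refine le_trans ?_ hmain
    gcongr
    exact le_max_left _ _
  have hXL' : 2 / ρ * ((L : ℝ) + 1) ≤ X := by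
    refine le_trans ?_ hXL
    gcongr
    exact le_max_right _ _
  have hratio : 2 ≤ ρ * X / (L + 1) := by
    rw [le_div_iff₀ hLpos]
    have := mul_le_mul_of_nonneg_left hXL' hρ.le
    have e : ρ * (2 / ρ * ((L : ℝ) + 1)) = 2 * (L + 1) := by field_simp
    linarith
  set W : ℕ := ⌊ρ * X / (L + 1)⌋₊ with hW
  have hWle : (W : ℝ) ≤ ρ * X / (L + 1) := Nat.floor_le (by linarith)
  have hWge : ρ * X / (L + 1) / 2 ≤ W := by
    have := Nat.lt_floor_add_one (ρ * X / ((L : ℝ) + 1))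
    rw [← hW] at this
    linarith
  have hWR : (1 : ℝ) ≤ W := by linarith
  have hWpos : (0 : ℝ) < W := by linarith
  have hWpos' : 0 < W := by exact_mod_cast hWpos
  -- σ = width of a window
  set σ : ℝ := ρ / W with hσ
  have hσpos : 0 < σ := div_pos hρ hWpos
  have hWσ : W * σ = ρ := by rw [hσ]; field_simp
  have hσL : (L : ℝ) / X ≤ σ := by
    rw [hσ, div_le_div_iff₀ hXpos hWpos]
    rw [le_div_iff₀ hLpos] at hWle
    nlinarith
  set ρ' : ℝ := 1 / (64 * (X : ℝ) ^ 2) with hρ'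
  have hρ'pos : 0 < ρ' := by positivity
  have hkey : 36864 * (X : ℝ) ^ 4 ≤ (W : ℝ) ^ 3 * (Ns.card : ℝ) ^ 2 := by
    have h1 : (ρ * X / (L + 1) / 2) ^ 3 ≤ (W : ℝ) ^ 3 := by
      apply pow_le_pow_left₀ _ hWge
      positivity
    calc 36864 * (X : ℝ) ^ 4 = (ρ * X / (L + 1) / 2) ^ 3 * (294912 / ρ ^ 3 * X * ((L : ℝ) + 1) ^ 3) := by
          field_simp
          ring
      _ ≤ (W : ℝ) ^ 3 * (Ns.card : ℝ) ^ 2 := by
          apply mul_le_mul h1 hmain' (by positivity) (by positivity)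
  have hNspos : 0 < Ns.card := by
    rcases Nat.eq_zero_or_pos Ns.card with h | h
    · rw [h] at hkey
      have : (0 : ℝ) < 36864 * (X : ℝ) ^ 4 := by positivity
      norm_num at hkey
      linarith
    · exact h
  have hNsR : (1 : ℝ) ≤ Ns.card := by exact_mod_cast hNspos
  have hρ'4 : ρ' ≤ ρ / 4 := by
    rw [hρ', div_le_div_iff₀ (by positivity) (by norm_num)]
    have h1 : 2 / ρ ≤ X := by
      refine le_trans ?_ hXL'
      apply le_mul_of_one_le_right (by positivity)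
      have : (0 : ℝ) ≤ L := by positivity
      linarith
    rw [div_le_iff₀ hρ] at h1
    have h2 : (X : ℝ) ≤ X ^ 2 := by nlinarith
    have h3 : ρ * X ≤ ρ * X ^ 2 := mul_le_mul_of_nonneg_left h2 hρ.le
    linarith
  refine ⟨ρ', W * Ns.card, hρ'pos, hρ'4, Nat.mul_pos hWpos' hNspos, ?_, ?_⟩
  · push_cast
    rw [hρ']
    have e : ((W : ℝ) * Ns.card) ^ 3 * (1 / (64 * (X : ℝ) ^ 2)) ^ 2
        = (W ^ 3 * Ns.card ^ 2) * Ns.card / (4096 * X ^ 4) := by
      field_simp
      ring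
    rw [e, le_div_iff₀ (by positivity)]
    have : (36864 * (X : ℝ) ^ 4) * 1 ≤ (W : ℝ) ^ 3 * (Ns.card : ℝ) ^ 2 * Ns.card :=
      mul_le_mul hkey hNsR (by norm_num) (by positivity)
    have h4 : (0 : ℝ) < X ^ 4 := by positivity
    linarith
  · intro x y
    -- choose the points
    have hchoice : ∀ p : Fin W × Ns, ∃ ab : ℤ × ℤ, ∃ r : ℕ, GoodPair p.2 r ∧
        x - ρ / 2 + p.1 * σ ≤ (ab.1 : ℝ) / (p.2 : ℕ) ∧ (ab.1 : ℝ) / (p.2 : ℕ) < x - ρ / 2 + (p.1 + 1) * σ ∧
        IsCoprime ab.1 ((p.2 : ℕ) : ℤ) ∧ (((p.2 : ℕ) : ℤ) ∣ ab.2 - r * ab.1) ∧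
        |(ab.2 : ℝ) / (p.2 : ℕ) - y| ≤ ρ / 4 := by
      rintro ⟨w, N, hN⟩
      obtain ⟨hXN, hN2X, r, hgood, hwin⟩ := hNs N hN
      have hNR : (0 : ℝ) < N := by
        have : (X : ℝ) ≤ N := by exact_mod_cast hXN
        linarith
      obtain ⟨a, b, ha1, ha2, hab, hb, hby⟩ := hwin ⌈(N : ℝ) * (x - ρ / 2 + w * σ)⌉ y
      refine ⟨(a, b), r, hgood, ?_, ?_, hab, hb, hby⟩
      · simp only
        rw [le_div_iff₀ hNR]
        have h1 := Int.le_ceil ((N : ℝ) * (x - ρ / 2 + w * σ))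
        have h2 : ((⌈(N : ℝ) * (x - ρ / 2 + w * σ)⌉ : ℤ) : ℝ) ≤ a := by exact_mod_cast ha1
        linarith
      · simp only
        rw [div_lt_iff₀ hNR]
        have h1 := Int.ceil_lt_add_one ((N : ℝ) * (x - ρ / 2 + w * σ))
        have h2 : a + 1 ≤ ⌈(N : ℝ) * (x - ρ / 2 + w * σ)⌉ + L := by linarith
        have h3 : (a : ℝ) + 1 ≤ (⌈(N : ℝ) * (x - ρ / 2 + w * σ)⌉ : ℤ) + L := by exact_mod_cast h2
        have h4 : (L : ℝ) ≤ σ * N := by
          have h5 : (X : ℝ) ≤ N := by exact_mod_cast hXN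
          rw [div_le_iff₀ hXpos] at hσL
          nlinarith
        have e : (x - ρ / 2 + ((w : ℕ) + 1) * σ) * N = N * (x - ρ / 2 + w * σ) + σ * N := by ring
        rw [e]
        linarith
    choose ab r hgood hlow hupp hcop hdvd hyy using hchoice
    let d : Fin W × Ns → ℝ × ℝ := fun p => ((ab p).1 / (p.2 : ℕ), (ab p).2 / (p.2 : ℕ))
    have hd1 : ∀ p, |(d p).1 - x| ≤ ρ / 2 := by
      intro p
      have h1 := hlow p
      have h2 := hupp p
      have h3 : (0 : ℝ) ≤ (p.1 : ℕ) * σ := by positivity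
      have h4 : (((p.1 : ℕ) : ℝ) + 1) * σ ≤ ρ := by
        rw [← hWσ]
        apply mul_le_mul_of_nonneg_right _ hσpos.le
        exact_mod_cast p.1.2
      simp only [d]
      rw [abs_le]
      constructor <;> linarith
    have hNpos : ∀ p : Fin W × Ns, (X : ℝ) ≤ (p.2 : ℕ) ∧ ((p.2 : ℕ) : ℝ) < 2 * X := by
      intro p
      obtain ⟨h1, h2, -⟩ := hNs p.2 p.2.2
      exact ⟨by exact_mod_cast h1, by exact_mod_cast h2⟩
    have hsep : ∀ p p' : Fin W × Ns, p ≠ p' → 4 * ρ' ≤ |(d p).1 - (d p').1| := by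
      intro p p' hne
      obtain ⟨hp1, hp2⟩ := hNpos p
      obtain ⟨hp1', hp2'⟩ := hNpos p'
      have hNR : (0 : ℝ) < (p.2 : ℕ) := by linarith
      have hNR' : (0 : ℝ) < (p'.2 : ℕ) := by linarith
      have hcross : (ab p).1 * ((p'.2 : ℕ) : ℤ) - (ab p').1 * ((p.2 : ℕ) : ℤ) ≠ 0 := by
        intro h0
        have h1 : (ab p).1 * ((p'.2 : ℕ) : ℤ) = (ab p').1 * ((p.2 : ℕ) : ℤ) := by linarith
        have h2 : ((p.2 : ℕ) : ℤ) ∣ ((p'.2 : ℕ) : ℤ) := by
          apply (hcop p).symm.dvd_of_dvd_mul_left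
          rw [h1]
          exact dvd_mul_left _ _
        have h3 : ((p'.2 : ℕ) : ℤ) ∣ ((p.2 : ℕ) : ℤ) := by
          apply (hcop p').symm.dvd_of_dvd_mul_left
          rw [← h1]
          exact dvd_mul_left _ _
        have h4 : (p.2 : ℕ) = (p'.2 : ℕ) :=
          Nat.dvd_antisymm (by exact_mod_cast h2) (by exact_mod_cast h3)
        have h5 : (ab p).1 = (ab p').1 := by
          rw [h4] at h1
          have h6 : ((p'.2 : ℕ) : ℤ) ≠ 0 := by
            have : ((p'.2 : ℕ) : ℝ) ≠ 0 := hNR'.ne'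
            exact_mod_cast this
          exact mul_right_cancel₀ h6 h1
        -- windows are disjoint
        have h6 : p.1 = p'.1 := by
          have g1 := hlow p
          have g2 := hupp p
          have g3 := hlow p'
          have g4 := hupp p'
          rw [h5, h4] at g1 g2
          have g5 : ((p.1 : ℕ) : ℝ) * σ < ((p'.1 : ℕ) + 1) * σ := by linarith
          have g6 : ((p'.1 : ℕ) : ℝ) * σ < ((p.1 : ℕ) + 1) * σ := by linarith
          have g7 := lt_of_mul_lt_mul_right g5 hσpos.le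
          have g8 := lt_of_mul_lt_mul_right g6 hσpos.le
          have g9 : (p.1 : ℕ) < (p'.1 : ℕ) + 1 := by exact_mod_cast g7
          have g10 : (p'.1 : ℕ) < (p.1 : ℕ) + 1 := by exact_mod_cast g8
          exact Fin.ext (by omega)
        exact hne (Prod.ext h6 (Subtype.ext h4))
      have h1 : (1 : ℝ) ≤ |((ab p).1 : ℝ) * (p'.2 : ℕ) - (ab p').1 * (p.2 : ℕ)| := by
        have := Int.one_le_abs hcross
        exact_mod_cast this
      have e : (d p).1 - (d p').1
          = (((ab p).1 : ℝ) * (p'.2 : ℕ) - (ab p').1 * (p.2 : ℕ)) / ((p.2 : ℕ) * (p'.2 : ℕ)) := by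
        simp only [d]
        field_simp
      rw [e, abs_div, abs_of_pos (mul_pos hNR hNR'), hρ', le_div_iff₀ (mul_pos hNR hNR')]
      have h2 : ((p.2 : ℕ) : ℝ) * (p'.2 : ℕ) ≤ 4 * X ^ 2 := by
        calc ((p.2 : ℕ) : ℝ) * (p'.2 : ℕ) ≤ (2 * X) * (2 * X) :=
              mul_le_mul hp2.le hp2'.le hNR'.le (by linarith)
          _ = _ := by ring
      have h3 : 4 * (1 / (64 * (X : ℝ) ^ 2)) * (((p.2 : ℕ) : ℝ) * (p'.2 : ℕ)) ≤ 1 := by
        calc 4 * (1 / (64 * (X : ℝ) ^ 2)) * (((p.2 : ℕ) : ℝ) * (p'.2 : ℕ))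
            ≤ 4 * (1 / (64 * (X : ℝ) ^ 2)) * (4 * X ^ 2) := by gcongr
          _ = 1 / 4 := by
            field_simp
            norm_num
          _ ≤ 1 := by norm_num
      linarith
    have hcardm : Fintype.card (Fin W × Ns) = W * Ns.card := by
      rw [Fintype.card_prod, Fintype.card_fin, Fintype.card_coe]
    let e : Fin (W * Ns.card) ≃ Fin W × Ns := (Fintype.equivFinOfCardEq hcardm).symm
    refine ⟨fun j => d (e j), ?_, ?_, ?_, ?_⟩
    · intro j
      refine ⟨?_, ?_⟩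
      · have := hd1 (e j)
        linarith
      · have := hyy (e j)
        simp only [d]
        linarith
    · intro j ξ ζ hξ hζ
      obtain ⟨h1, h2⟩ := hNpos (e j)
      obtain ⟨hXN, -, -⟩ := hNs (e j).2 (e j).2.2
      refine ⟨(e j).2, ?_, ?_, ?_⟩
      · have := le_max_left N0 2
        omega
      · have := le_max_right N0 2
        omega
      · have hle : ρ' ≤ 1 / (16 * (((e j).2 : ℕ) : ℝ) ^ 2) := by
          rw [hρ']
          have g0 : (0 : ℝ) < ((e j).2 : ℕ) := by linarith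
          have g1 : (((e j).2 : ℕ) : ℝ) ^ 2 ≤ (2 * X) ^ 2 := pow_le_pow_left₀ g0.le h2.le 2
          have g2 : (2 * (X : ℝ)) ^ 2 = 4 * X ^ 2 := by ring
          rw [g2] at g1
          apply one_div_le_one_div_of_le (by positivity)
          linarith
        exact perturb (by omega) (hgood (e j)) (hcop (e j)) (hdvd (e j)) (hξ.trans hle)
          (hζ.trans hle)
    · intro i j hij
      exact hsep _ _ fun h => hij (e.injective h)
    · intro z ℓ hℓ
      have hℓpos : 0 < ℓ := lt_of_lt_of_le hρ'pos hℓ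
      set S := Finset.univ.filter fun j : Fin (W * Ns.card) => |(d (e j)).1 - z| ≤ ℓ with hS
      -- windows met
      set V := Finset.univ.filter fun w : Fin W =>
        z - ℓ - σ ≤ x - ρ / 2 + (w : ℕ) * σ ∧ x - ρ / 2 + (w : ℕ) * σ ≤ z + ℓ with hV
      have hSV : S.card ≤ V.card * Ns.card := by
        have h1 : S.card ≤ (V ×ˢ (Finset.univ : Finset Ns)).card := by
          apply Finset.card_le_card_of_injOn (fun j => e j)
          · intro j hj
            simp only [hS, Finset.coe_filter, Finset.mem_univ, true_and, Set.mem_ofPred_eq] at hj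
            rw [abs_le] at hj
            have g1 := hlow (e j)
            have g2 := hupp (e j)
            simp only [d] at hj
            simp only [Finset.coe_product, Set.mem_prod, Finset.mem_coe, Finset.mem_univ, and_true,
              hV, Finset.mem_filter, true_and]
            constructor <;> linarith
          · exact fun _ _ _ _ h => e.injective h
        rw [Finset.card_product, Finset.card_univ, Fintype.card_coe] at h1
        exact h1
      have hVcard : (V.card : ℝ) ≤ 2 * ℓ / σ + 2 := by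
        have h1 := card_sep V (fun w : Fin W => x - ρ / 2 + (w : ℕ) * σ) (A := z - ℓ - σ)
          (B := z + ℓ) hσpos ?_ ?_ ?_ (by linarith)
        · have e1 : (z + ℓ - (z - ℓ - σ)) / σ + 1 = 2 * ℓ / σ + 2 := by
            field_simp
            ring
          rwa [e1] at h1
        · intro i _ j _ hij
          have h2 : (x - ρ / 2 + (i : ℕ) * σ) - (x - ρ / 2 + (j : ℕ) * σ)
              = (((i : ℕ) : ℤ) - ((j : ℕ) : ℤ) : ℤ) * σ := by
            push_cast
            ring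
          rw [h2, abs_mul, abs_of_pos hσpos]
          have h3 : (((i : ℕ) : ℤ) - ((j : ℕ) : ℤ)) ≠ 0 := by
            intro h0
            exact hij (Fin.ext (by omega))
          have h4 := Int.one_le_abs h3
          have h5 : (1 : ℝ) ≤ |((((i : ℕ) : ℤ) - ((j : ℕ) : ℤ) : ℤ) : ℝ)| := by exact_mod_cast h4
          nlinarith
        · intro i hi
          exact (Finset.mem_filter.mp hi).2.1
        · intro i hi
          exact (Finset.mem_filter.mp hi).2.2
      have hSR : (S.card : ℝ) ≤ (2 * ℓ / σ + 2) * Ns.card := by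
        calc (S.card : ℝ) ≤ V.card * Ns.card := by exact_mod_cast hSV
          _ ≤ _ := mul_le_mul_of_nonneg_right hVcard (by positivity)
      by_cases hcase : σ ≤ ℓ
      · left
        have h1 : 2 ≤ 2 * ℓ / σ := by
          rw [le_div_iff₀ hσpos]
          linarith
        calc (S.card : ℝ) ≤ (2 * ℓ / σ + 2) * Ns.card := hSR
          _ ≤ (2 * ℓ / σ + 2 * ℓ / σ) * Ns.card := by gcongr
          _ = 4 * ((W * Ns.card : ℕ) : ℝ) * ℓ / ρ := by
            push_cast
            rw [hσ]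
            field_simp
            ring
      · right
        push Not at hcase
        have h1 : 2 * ℓ / σ ≤ 2 := by
          rw [div_le_iff₀ hσpos]
          linarith
        have h2 : (S.card : ℝ) ≤ 4 * Ns.card := by
          refine le_trans hSR ?_
          have : 2 * ℓ / σ + 2 ≤ 4 := by linarith
          exact mul_le_mul_of_nonneg_right this (by positivity)
        have h3 : (S.card : ℝ) ≤ 96 * ℓ * X ^ 2 := by
          have h4 := card_sep S (fun j => (d (e j)).1) (A := z - ℓ) (B := z + ℓ)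
            (δ := 4 * ρ') (by positivity) ?_ ?_ ?_ (by linarith)
          · have e1 : (z + ℓ - (z - ℓ)) / (4 * ρ') + 1 = 32 * ℓ * X ^ 2 + 1 := by
              rw [hρ']
              field_simp
              ring
            rw [e1] at h4
            have h5 : 1 ≤ 64 * ℓ * (X : ℝ) ^ 2 := by
              rw [hρ', div_le_iff₀ (by positivity)] at hℓ
              linarith
            linarith
          · intro i _ j _ hij
            exact hsep _ _ fun h => hij (e.injective h)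
          · intro i hi
            have := (Finset.mem_filter.mp hi).2
            rw [abs_le] at this
            linarith
          · intro i hi
            have := (Finset.mem_filter.mp hi).2
            rw [abs_le] at this
            linarith
        have h0 : (0 : ℝ) ≤ S.card := by positivity
        calc (S.card : ℝ) ^ 3 = S.card * S.card ^ 2 := by ring
          _ ≤ (4 * Ns.card) * (96 * ℓ * X ^ 2) ^ 2 := by
            apply mul_le_mul h2 (pow_le_pow_left₀ h0 h3 2) (by positivity) (by positivity)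
          _ = (36864 * X ^ 4) * (Ns.card * ℓ ^ 2) := by ring
          _ ≤ ((W : ℝ) ^ 3 * (Ns.card : ℝ) ^ 2) * (Ns.card * ℓ ^ 2) := by gcongr
          _ = ((W * Ns.card : ℕ) : ℝ) ^ 3 * ℓ ^ 2 := by
            push_cast
            ring

end Pool.Agent.H45Littlewood
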