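import Pool.Agent.H45Littlewood.Words
import Pool.Agent.H45Littlewood.Sieve

/-!
In every short window of integers there is some `a` coprime to `N` with `a r / N` close to a
prescribed real number modulo one.
-/

open Finset

namespace Pool.Agent.H45Littlewood

/-- avoiding common factors in a progression -/
lemma sieve_prog (P : Finset ℕ) (hP : ∀ p ∈ P, p.Prime) (a c : ℤ)
    (h : ∀ p ∈ P, ¬ ((p : ℤ) ∣ a ∧ (p : ℤ) ∣ c)) :
    ∃ t : ℕ, t < 4 ^ P.card * (P.card + 1) ∧ ∀ p ∈ P, ¬ (p : ℤ) ∣ a + t * c := by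
  obtain ⟨t, ht, ht'⟩ := sieve P hP (fun p => -a * Int.gcdA c p)
  refine ⟨t, ht, fun p hp hdvd => ?_⟩
  by_cases hc : (p : ℤ) ∣ c
  · refine h p hp ⟨?_, hc⟩
    have := dvd_sub hdvd (Dvd.dvd.mul_left hc (t : ℤ))
    have e : a + t * c - t * c = a := by ring
    rwa [e] at this
  · apply ht' p hp
    have hprime := hP p hp
    have hgcd : Int.gcd c p = 1 := by
      rw [Int.gcd_comm]
      have : IsCoprime (p : ℤ) c :=
        (Prime.coprime_iff_not_dvd (Nat.prime_iff_prime_int.mp hprime)).mpr hc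
      exact Int.isCoprime_iff_gcd_eq_one.mp this
    have hbez := Int.gcd_eq_gcd_ab c p
    rw [hgcd] at hbez
    have h1 : (p : ℤ) ∣ (a + t * c) * Int.gcdA c p := Dvd.dvd.mul_right hdvd _
    have h2 : (p : ℤ) ∣ (p : ℤ) * Int.gcdB c p * t := by
      rw [mul_assoc]
      exact dvd_mul_right _ _
    have h3 := dvd_add h1 h2
    have e : (a + t * c) * Int.gcdA c p + (p : ℤ) * Int.gcdB c p * t
        = (t : ℤ) - -a * Int.gcdA c p := by
      have : c * Int.gcdA c p + p * Int.gcdB c p = 1 := by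
        rw [← hbez]
        simp
      linear_combination (t : ℤ) * this
    rwa [e] at h3

/-- walking along a progression modulo one -/
lemma walk (δ u : ℝ) (hδ : δ ≠ 0) :
    ∃ (k : ℕ) (z : ℤ), |k * δ + z - u| ≤ |δ| ∧ (k : ℝ) * |δ| ≤ 1 := by
  rcases lt_or_gt_of_ne hδ with h | h
  · refine ⟨⌊Int.fract (-u) / (-δ)⌋₊, -⌊-u⌋, ?_, ?_⟩
    · have h1 : 0 ≤ Int.fract (-u) / (-δ) := div_nonneg (Int.fract_nonneg _) (by linarith)
      have h2 := Nat.floor_le h1
      have h3 := Nat.lt_floor_add_one (Int.fract (-u) / (-δ))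
      rw [le_div_iff₀ (by linarith)] at h2
      rw [div_lt_iff₀ (by linarith)] at h3
      have h4 : (⌊-u⌋ : ℝ) + Int.fract (-u) = -u := Int.floor_add_fract _
      rw [abs_of_neg h, abs_le]
      push_cast
      constructor <;> nlinarith
    · have h1 : 0 ≤ Int.fract (-u) / (-δ) := div_nonneg (Int.fract_nonneg _) (by linarith)
      have h2 := Nat.floor_le h1
      rw [le_div_iff₀ (by linarith)] at h2
      rw [abs_of_neg h]
      exact le_trans h2 (Int.fract_lt_one _).le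
  · refine ⟨⌊Int.fract u / δ⌋₊, ⌊u⌋, ?_, ?_⟩
    · have h1 : 0 ≤ Int.fract u / δ := div_nonneg (Int.fract_nonneg _) h.le
      have h2 := Nat.floor_le h1
      have h3 := Nat.lt_floor_add_one (Int.fract u / δ)
      rw [le_div_iff₀ h] at h2
      rw [div_lt_iff₀ h] at h3
      have h4 : (⌊u⌋ : ℝ) + Int.fract u = u := Int.floor_add_fract _
      rw [abs_of_pos h, abs_le]
      constructor <;> nlinarith
    · have h1 : 0 ≤ Int.fract u / δ := div_nonneg (Int.fract_nonneg _) h.le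
      have h2 := Nat.floor_le h1
      rw [le_div_iff₀ h] at h2
      rw [abs_of_pos h]
      exact le_trans h2 (Int.fract_lt_one _).le

/-- the sieve bound -/
def sb (N : ℕ) : ℕ := 4 ^ N.primeFactors.card * (N.primeFactors.card + 1)

theorem window {M : ℕ} (hM : 2 ≤ M) {w : List ℕ} (hw : Letters M w) (hne : w ≠ []) {η : ℝ}
    (hη : 0 < η) {T0 T1 : ℕ} (hT0M : M ≤ T0) (hT0η : 2 ≤ T0 * η) (hT0N : T0 < (cont w).1)
    (hT1M : M ≤ T1) (hT1η : 2 * (M + 2) * sb (cont w).1 ≤ T1 * η) (hT1N : T1 < (cont w).1)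
    (A : ℤ) (y : ℝ) :
    ∃ a b : ℤ, A ≤ a ∧ a ≤ A + (2 * (M + 1) * T0 ^ 2 + 2 * sb (cont w).1 * T1 : ℕ) ∧
      IsCoprime a ((cont w).1 : ℤ) ∧ ((cont w).1 : ℤ) ∣ b - (cont w).2 * a ∧
      |(b : ℝ) / (cont w).1 - y| ≤ η := by
  set N := (cont w).1 with hN
  set r := (cont w).2 with hr
  set S := sb N with hS
  have hNpos : 0 < N := by
    have := cont_pos hw
    omega
  have hNR : (0 : ℝ) < N := by exact_mod_cast hNpos
  have hT0pos : 0 < T0 := by omega
  have hT1pos : 0 < T1 := by omega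
  have hT0R : (0 : ℝ) < T0 := by exact_mod_cast hT0pos
  have hT1R : (0 : ℝ) < T1 := by exact_mod_cast hT1pos
  -- first approximation
  obtain ⟨α0, β0, yα0, yβ0, hα01, hαβ0, hβ0T, -, -, hyβ0, -, hyβ0T⟩ := conv hM hw T0 hT0M hT0N hne
  have hgood := good hM hw (x := (β0 : ℤ)) (y := yβ0) (by rw [Nat.abs_cast]; omega)
    (by rw [Nat.abs_cast]; exact_mod_cast lt_of_le_of_lt hβ0T hT0N) hyβ0
  rw [Nat.abs_cast] at hgood
  have hyne : yβ0 ≠ 0 := by
    rintro rfl
    simp at hgood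
    omega
  set δ : ℝ := (yβ0 : ℝ) / N with hδ
  have hδne : δ ≠ 0 := div_ne_zero (by exact_mod_cast hyne) hNR.ne'
  have hδabs : |δ| = |(yβ0 : ℝ)| / N := by rw [hδ, abs_div, abs_of_pos hNR]
  have hδle : |δ| ≤ η / 2 := by
    rw [hδabs, div_le_iff₀ hNR]
    have h1 : |(yβ0 : ℝ)| * T0 ≤ N := by exact_mod_cast hyβ0T
    have h2 : |(yβ0 : ℝ)| * 2 ≤ |(yβ0 : ℝ)| * (T0 * η) :=
      mul_le_mul_of_nonneg_left hT0η (abs_nonneg _)
    nlinarith
  have hδge : 1 ≤ 2 * (M + 1) * T0 * |δ| := by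
    rw [hδabs, mul_div_assoc', le_div_iff₀ hNR]
    have h1 : (N : ℝ) ≤ 2 * (M + 1) * (β0 * |(yβ0 : ℝ)|) := by exact_mod_cast hgood
    have h2 : (β0 : ℝ) ≤ T0 := by exact_mod_cast hβ0T
    have h3 : (β0 : ℝ) * |(yβ0 : ℝ)| ≤ T0 * |(yβ0 : ℝ)| :=
      mul_le_mul_of_nonneg_right h2 (abs_nonneg _)
    have h4 : (0 : ℝ) ≤ 2 * (M + 1) := by positivity
    nlinarith [mul_le_mul_of_nonneg_left h3 h4]
  obtain ⟨k, z, hkz, hk1⟩ := walk δ (y - (r * A : ℤ) / N) hδne
  have hkle : (k : ℝ) ≤ 2 * (M + 1) * T0 := by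
    have hδpos : 0 < |δ| := abs_pos.mpr hδne
    have h1 : (k : ℝ) * |δ| ≤ 2 * (M + 1) * T0 * |δ| := le_trans hk1 hδge
    exact le_of_mul_le_mul_right h1 hδpos
  have hkle' : k ≤ 2 * (M + 1) * T0 := by exact_mod_cast hkle
  -- second approximation
  obtain ⟨α, β, yα, yβ, hα1, hαβ, hβT, hcop, hyα, hyβ, hyαT, hyβT⟩ := conv hM hw T1 hT1M hT1N hne
  set a0 : ℤ := A + k * β0 with ha0
  set b0 : ℤ := r * A + k * yβ0 + z * N with hb0
  -- step 1
  obtain ⟨s, hs, hs'⟩ := sieve_prog (N.primeFactors.filter fun p => p ∣ β)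
    (fun p hp => Nat.prime_of_mem_primeFactors (Finset.mem_of_mem_filter p hp)) a0 α (by
      rintro p hp ⟨-, hpα⟩
      rw [Finset.mem_filter] at hp
      have hprime := Nat.prime_of_mem_primeFactors hp.1
      have h1 : p ∣ α := by exact_mod_cast hpα
      have h2 := Nat.dvd_gcd h1 hp.2
      rw [hcop] at h2
      exact hprime.one_lt.ne' (Nat.dvd_one.mp h2))
  have hsS : s ≤ S := by
    have h1 : (N.primeFactors.filter fun p => p ∣ β).card ≤ N.primeFactors.card :=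
      Finset.card_filter_le _ _
    have h2 : 4 ^ (N.primeFactors.filter fun p => p ∣ β).card
        * ((N.primeFactors.filter fun p => p ∣ β).card + 1) ≤ S := by
      rw [hS, sb]
      exact Nat.mul_le_mul (Nat.pow_le_pow_right (by norm_num) h1) (by omega)
    omega
  set a1 : ℤ := a0 + s * α with ha1
  obtain ⟨t, ht, ht'⟩ := sieve_prog N.primeFactors
    (fun p hp => Nat.prime_of_mem_primeFactors hp) a1 β (by
      rintro p hp ⟨hpa, hpβ⟩
      exact hs' p (Finset.mem_filter.mpr ⟨hp, by exact_mod_cast hpβ⟩) hpa)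
  have htS : t ≤ S := by
    rw [hS, sb]
    omega
  refine ⟨a1 + t * β, b0 + s * yα + t * yβ, ?_, ?_, ?_, ?_, ?_⟩
  · rw [ha1, ha0]
    have : (0 : ℤ) ≤ k * β0 + s * α + t * β := by positivity
    linarith
  · rw [ha1, ha0]
    have h1 : k * β0 ≤ 2 * (M + 1) * T0 ^ 2 := by
      calc k * β0 ≤ 2 * (M + 1) * T0 * T0 := Nat.mul_le_mul hkle' hβ0T
        _ = _ := by ring
    have h2 : s * α ≤ S * T1 := Nat.mul_le_mul hsS (hαβ.trans hβT)
    have h3 : t * β ≤ S * T1 := Nat.mul_le_mul htS hβT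
    have h4 : k * β0 + s * α + t * β ≤ 2 * (M + 1) * T0 ^ 2 + 2 * S * T1 := by linarith
    have h5 : ((k * β0 + s * α + t * β : ℕ) : ℤ) ≤ ((2 * (M + 1) * T0 ^ 2 + 2 * S * T1 : ℕ) : ℤ) := by
      exact_mod_cast h4
    push_cast at h5 ⊢
    linarith
  · rw [Int.isCoprime_iff_gcd_eq_one]
    by_contra hne1
    obtain ⟨p, hp, hpd⟩ := Nat.exists_prime_and_dvd hne1
    have h1 : (p : ℤ) ∣ a1 + t * β := dvd_trans (Int.natCast_dvd_natCast.mpr hpd) (Int.gcd_dvd_left ..)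
    have h2 : (p : ℤ) ∣ (N : ℤ) := dvd_trans (Int.natCast_dvd_natCast.mpr hpd) (Int.gcd_dvd_right ..)
    exact ht' p (Nat.mem_primeFactors.mpr ⟨hp, by exact_mod_cast h2, hNpos.ne'⟩) h1
  · have e : b0 + s * yα + t * yβ - r * (a1 + t * β)
        = k * (yβ0 - r * β0) + z * N + s * (yα - r * α) + t * (yβ - r * β) := by
      rw [hb0, ha1, ha0]
      ring
    rw [e]
    exact dvd_add (dvd_add (dvd_add (Dvd.dvd.mul_left hyβ0 _) (dvd_mul_left _ _))
      (Dvd.dvd.mul_left hyα _)) (Dvd.dvd.mul_left hyβ _)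
  · have e : ((b0 + s * yα + t * yβ : ℤ) : ℝ) / N - y
        = (k * δ + z - (y - (r * A : ℤ) / N)) + (s * yα + t * yβ : ℝ) / N := by
      rw [hb0, hδ]
      push_cast
      field_simp
      ring
    rw [e]
    have h1 : |(s * yα + t * yβ : ℝ) / N| ≤ η / 2 := by
      rw [abs_div, abs_of_pos hNR, div_le_iff₀ hNR]
      have h2 : |(s * yα + t * yβ : ℝ)| ≤ S * |(yα : ℝ)| + S * |(yβ : ℝ)| := by
        calc |(s * yα + t * yβ : ℝ)| ≤ |(s * yα : ℝ)| + |(t * yβ : ℝ)| := abs_add_le _ _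
          _ = s * |(yα : ℝ)| + t * |(yβ : ℝ)| := by rw [abs_mul, abs_mul, Nat.abs_cast, Nat.abs_cast]
          _ ≤ _ := by
            have g1 : (s : ℝ) ≤ S := by exact_mod_cast hsS
            have g2 : (t : ℝ) ≤ S := by exact_mod_cast htS
            gcongr
      have h3 : |(yα : ℝ)| * T1 ≤ (M + 1) * N := by exact_mod_cast hyαT
      have h4 : |(yβ : ℝ)| * T1 ≤ N := by exact_mod_cast hyβT
      have h5 : (S * |(yα : ℝ)| + S * |(yβ : ℝ)|) * T1 ≤ η / 2 * N * T1 := by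
        have hS0 : (0 : ℝ) ≤ S := by positivity
        have g1 : (S * |(yα : ℝ)| + S * |(yβ : ℝ)|) * T1 ≤ S * ((M + 2) * N) := by
          nlinarith [mul_le_mul_of_nonneg_left h3 hS0, mul_le_mul_of_nonneg_left h4 hS0]
        have g2 : S * ((M + 2) * N) ≤ η / 2 * N * T1 := by
          nlinarith [mul_le_mul_of_nonneg_right hT1η hNR.le]
        linarith
      have h6 := le_of_mul_le_mul_right h5 hT1R
      linarith
    calc _ ≤ |k * δ + z - (y - (r * A : ℤ) / N)| + |(s * yα + t * yβ : ℝ) / N| := abs_add_le _ _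
      _ ≤ |δ| + η / 2 := add_le_add hkz h1
      _ ≤ η := by linarith

end Pool.Agent.H45Littlewood
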