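import Mathlib

/-!
Continuants of words and the badly approximable property of the corresponding fractions.
-/

namespace Pool.Agent.H45Littlewood

/-- `cont w = (N, r)` where `r / N = [0; a_1, …, a_n, 2]` for `w = [a_1, …, a_n]`. -/
def cont : List ℕ → ℕ × ℕ
  | [] => (2, 1)
  | a :: l => (a * (cont l).1 + (cont l).2, (cont l).1)

/-- all letters are between `1` and `M` -/
def Letters (M : ℕ) (w : List ℕ) : Prop := ∀ a ∈ w, 1 ≤ a ∧ a ≤ M

lemma Letters.tail {M a : ℕ} {w : List ℕ} (h : Letters M (a :: w)) : Letters M w :=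
  fun b hb => h b (List.mem_cons_of_mem _ hb)

lemma Letters.head {M a : ℕ} {w : List ℕ} (h : Letters M (a :: w)) : 1 ≤ a ∧ a ≤ M :=
  h a (by simp)

lemma cont_lt {M : ℕ} {w : List ℕ} (h : Letters M w) : 0 < (cont w).2 ∧ (cont w).2 < (cont w).1 := by
  induction w with
  | nil => simp [cont]
  | cons a l ih =>
      obtain ⟨h1, h2⟩ := ih h.tail
      obtain ⟨ha, -⟩ := h.head
      simp only [cont]
      constructor
      · omega
      · nlinarith

lemma cont_pos {M : ℕ} {w : List ℕ} (h : Letters M w) : 2 ≤ (cont w).1 := by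
  have := cont_lt h
  omega

lemma cont_coprime (w : List ℕ) : Nat.Coprime (cont w).2 (cont w).1 := by
  induction w with
  | nil => simp [cont]
  | cons a l ih =>
      simp only [cont]
      rw [Nat.coprime_mul_right_add_right]
      exact ih.symm

lemma neg_sign {σ : ℤ} (h : σ = 1 ∨ σ = -1) : -σ = 1 ∨ -σ = -1 := by
  rcases h with rfl | rfl <;> simp

/-- the main induction for the badly approximable property -/
lemma good_aux {M : ℕ} (hM : 2 ≤ M) (v : List ℕ) (hv : Letters M v) :
    ∀ (q' q : ℕ) (σ : ℤ), (σ = 1 ∨ σ = -1) → q' ≤ q → 1 ≤ q → ∀ (N : ℕ),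
      N = q * (cont v).1 + q' * (cont v).2 →
      ∀ (s t : ℤ) (x y : ℤ), x = s * q' + t * q → y = s * (σ * (cont v).1) + t * (-σ * (cont v).2) →
        (q : ℤ) ≤ |x| → |x| < N → (N : ℤ) ≤ 2 * (M + 1) * (|x| * |y|) := by
  -- the one step argument
  have step : ∀ (q' q q'' E E' : ℕ) (τ : ℤ), (τ = 1 ∨ τ = -1) → q' ≤ q → 1 ≤ q → q'' ≤ (M + 1) * q →
      q ≤ q'' → E' ≤ E → ∀ (N : ℕ), N = q'' * E + q * E' → ∀ (s t x y : ℤ), x = s * q + t * q'' →
      y = s * (τ * E) + t * (-τ * E') → (q : ℤ) ≤ |x| → |x| < q'' →
      (N : ℤ) ≤ 2 * (M + 1) * (|x| * |y|) := by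
    intro q' q q'' E E' τ hτ hq'q hq hq''M hqq'' hE N hN s t x y hx hy hqx hxq''
    have hs : s ≠ 0 := by
      rintro rfl
      have hx' : x = t * q'' := by rw [hx]; ring
      rcases eq_or_ne t 0 with rfl | ht
      · rw [hx'] at hqx
        simp at hqx
        omega
      · have : (1 : ℤ) ≤ |t| := Int.one_le_abs ht
        rw [hx', abs_mul, Nat.abs_cast] at hxq''
        have h0 : (0 : ℤ) ≤ q'' := by positivity
        nlinarith
    -- |y| ≥ E
    have hyE : (E : ℤ) ≤ |y| := by
      have hs1 : (1 : ℤ) ≤ |s| := Int.one_le_abs hs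
      have hE0 : (0 : ℤ) ≤ E := by positivity
      have hE'0 : (0 : ℤ) ≤ E' := by positivity
      rcases lt_trichotomy s 0 with hs0 | hs0 | hs0
      · -- s < 0, then t ≥ 0
        have ht : 0 ≤ t := by
          by_contra ht
          push Not at ht
          have h1 : x ≤ -(q : ℤ) - q'' := by
            rw [hx]
            have h0 : (0 : ℤ) ≤ q := by positivity
            have h0' : (0 : ℤ) ≤ q'' := by positivity
            nlinarith
          have : |x| = -x := abs_of_nonpos (by
            have h0 : (0 : ℤ) ≤ q := by positivity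
            have h0' : (0 : ℤ) ≤ q'' := by positivity
            linarith)
          rw [this] at hxq''
          have h0 : (0 : ℤ) ≤ q := by positivity
          linarith
        rcases hτ with rfl | rfl
        · have : y = -((-s) * E + t * E') := by rw [hy]; ring
          rw [this, abs_neg, abs_of_nonneg (by nlinarith)]
          nlinarith
        · have : y = (-s) * E + t * E' := by rw [hy]; ring
          rw [this, abs_of_nonneg (by nlinarith)]
          nlinarith
      · exact absurd hs0 hs
      · have ht : t ≤ 0 := by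
          by_contra ht
          push Not at ht
          have h1 : (q : ℤ) + q'' ≤ x := by
            rw [hx]
            have h0 : (0 : ℤ) ≤ q := by positivity
            have h0' : (0 : ℤ) ≤ q'' := by positivity
            nlinarith
          have : |x| = x := abs_of_nonneg (by
            have h0 : (0 : ℤ) ≤ q := by positivity
            have h0' : (0 : ℤ) ≤ q'' := by positivity
            linarith)
          rw [this] at hxq''
          have h0 : (0 : ℤ) ≤ q := by positivity
          linarith
        rcases hτ with rfl | rfl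
        · have : y = s * E + (-t) * E' := by rw [hy]; ring
          rw [this, abs_of_nonneg (by nlinarith)]
          nlinarith
        · have : y = -(s * E + (-t) * E') := by rw [hy]; ring
          rw [this, abs_neg, abs_of_nonneg (by nlinarith)]
          nlinarith
    have hNle : (N : ℤ) ≤ 2 * (M + 1) * (q * E) := by
      rw [hN]
      push_cast
      have h1 : (q'' : ℤ) * E ≤ ((M + 1) * q) * E := by
        have : (q'' : ℤ) ≤ (M + 1) * q := by exact_mod_cast hq''M
        exact mul_le_mul_of_nonneg_right this (by positivity)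
      have h2 : (q : ℤ) * E' ≤ q * E := by
        have : (E' : ℤ) ≤ E := by exact_mod_cast hE
        exact mul_le_mul_of_nonneg_left this (by positivity)
      have h3 : (q : ℤ) * E ≤ ((M + 1) * q) * E := by
        have : (q : ℤ) ≤ (M + 1) * q := by nlinarith
        exact mul_le_mul_of_nonneg_right this (by positivity)
      linarith
    have hprod : (q : ℤ) * E ≤ |x| * |y| := mul_le_mul hqx hyE (by positivity) (abs_nonneg _)
    have : (0 : ℤ) ≤ 2 * (M + 1) := by positivity
    nlinarith
  induction v with
  | nil =>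
      intro q' q σ hσ hq'q hq N hN s t x y hx hy hqx hxN
      simp only [cont] at hN hy
      -- next vector is e'' = e' + 2 e = (N, 0)
      refine step q' q (q' + 2 * q) 1 0 (-σ) (neg_sign hσ) hq'q hq (by nlinarith) (by omega)
        (by omega) N (by rw [hN]; ring) (t - 2 * s) s x y ?_ ?_ hqx ?_
      · rw [hx]
        push_cast
        ring
      · rw [hy]
        push_cast
        ring
      · rw [hN] at hxN
        push_cast at hxN ⊢
        linarith
  | cons a l ih =>
      intro q' q σ hσ hq'q hq N hN s t x y hx hy hqx hxN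
      obtain ⟨ha1, haM⟩ := hv.head
      have hlt := cont_lt hv.tail
      simp only [cont] at hN hy
      set E := (cont l).1 with hE
      set E' := (cont l).2 with hE'
      by_cases hc : |x| < ((q' + a * q : ℕ) : ℤ)
      · refine step q' q (q' + a * q) E E' (-σ) (neg_sign hσ) hq'q hq ?_ ?_ hlt.2.le N
          (by rw [hN]; ring) (t - a * s) s x y ?_ ?_ hqx hc
        · have := Nat.mul_le_mul_right q haM
          linarith
        · have := Nat.le_mul_of_pos_left q ha1
          omega
        · rw [hx]
          push_cast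
          ring
        · rw [hy]
          push_cast
          ring
      · push Not at hc
        have haq := Nat.le_mul_of_pos_left q ha1
        refine ih hv.tail q (q' + a * q) (-σ) (neg_sign hσ) (by omega) (by omega) N
          (by rw [hN]; ring) (t - a * s) s x y ?_ ?_ hc hxN
        · rw [hx]
          push_cast
          ring
        · rw [hy]
          push_cast
          ring

/-- fractions with bounded partial quotients are badly approximable -/
theorem good {M : ℕ} (hM : 2 ≤ M) {w : List ℕ} (hw : Letters M w) {x y : ℤ} (hx : 1 ≤ |x|)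
    (hxN : |x| < (cont w).1) (hxy : ((cont w).1 : ℤ) ∣ y - (cont w).2 * x) :
    ((cont w).1 : ℤ) ≤ 2 * (M + 1) * (|x| * |y|) := by
  obtain ⟨k, hk⟩ := hxy
  refine good_aux hM w hw 0 1 (-1) (by tauto) (by omega) le_rfl (cont w).1 (by ring) (-k) x x y
    (by push_cast; ring) ?_ (by exact_mod_cast hx) hxN
  have : y = (cont w).1 * k + (cont w).2 * x := by linarith
  rw [this]
  ring

/-- the induction producing two consecutive convergents -/
lemma conv_aux {M : ℕ} (hM : 2 ≤ M) (N r : ℕ) (v : List ℕ) (hv : Letters M v) :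
    ∀ (q' q : ℕ) (σ : ℤ), (σ = 1 ∨ σ = -1) → 1 ≤ q' → q' ≤ q → Nat.Coprime q' q →
      N = q * (cont v).1 + q' * (cont v).2 →
      (N : ℤ) ∣ σ * (cont v).1 - r * q' → (N : ℤ) ∣ -σ * (cont v).2 - r * q →
      ∀ T : ℕ, q ≤ T → T < N →
      ∃ (α β : ℕ) (yα yβ : ℤ), 1 ≤ α ∧ α ≤ β ∧ β ≤ T ∧ Nat.Coprime α β ∧
        (N : ℤ) ∣ yα - r * α ∧ (N : ℤ) ∣ yβ - r * β ∧ |yα| * T ≤ (M + 1) * N ∧ |yβ| * T ≤ N := by
  have habs : ∀ σ : ℤ, (σ = 1 ∨ σ = -1) → ∀ D : ℕ, |σ * (D : ℤ)| = D ∧ |-σ * (D : ℤ)| = D := by
    intro σ hσ D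
    rcases hσ with rfl | rfl <;> simp
  induction v with
  | nil =>
      intro q' q σ hσ hq' hq'q hcop hN h1 h2 T hqT hTN
      refine ⟨q', q, σ * (cont []).1, -σ * (cont []).2, hq', hq'q, hqT, hcop, h1, h2, ?_, ?_⟩
      · rw [(habs σ hσ _).1]
        simp only [cont] at hN ⊢
        have h3 : T ≤ (M + 1) * q := by nlinarith
        have h4 : 2 * T ≤ (M + 1) * N := by nlinarith
        exact_mod_cast h4
      · rw [(habs σ hσ _).2]
        simp only [cont]
        push_cast
        have : (T : ℤ) ≤ N := by exact_mod_cast hTN.le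
        linarith
  | cons a l ih =>
      intro q' q σ hσ hq' hq'q hcop hN h1 h2 T hqT hTN
      obtain ⟨ha1, haM⟩ := hv.head
      have hlt := cont_lt hv.tail
      by_cases hc : T < q' + a * q
      · refine ⟨q', q, σ * (cont (a :: l)).1, -σ * (cont (a :: l)).2, hq', hq'q, hqT, hcop, h1, h2,
          ?_, ?_⟩
        · rw [(habs σ hσ _).1]
          have h3 : T ≤ (M + 1) * q := by nlinarith
          have h4 : q * (cont (a :: l)).1 ≤ N := by rw [hN]; exact Nat.le_add_right _ _
          have h5 : (cont (a :: l)).1 * T ≤ (M + 1) * N := by nlinarith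
          exact_mod_cast h5
        · rw [(habs σ hσ _).2]
          simp only [cont] at hN ⊢
          have h5 : (cont l).1 * T ≤ N := by nlinarith
          exact_mod_cast h5
      · push Not at hc
        have haq := Nat.le_mul_of_pos_left q ha1
        refine ih hv.tail q (q' + a * q) (-σ) (neg_sign hσ) (by omega) (by omega) ?_ ?_ ?_ ?_ T hc
          hTN
        · rw [add_comm, Nat.coprime_mul_right_add_right]
          exact hcop.symm
        · rw [hN]
          simp only [cont]
          ring
        · simpa [cont] using h2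
        · have h3 := dvd_add h1 (Dvd.dvd.mul_left h2 (a : ℤ))
          have e : -(-σ) * ((cont l).2 : ℤ) - r * ((q' + a * q : ℕ) : ℤ)
              = (σ * ((cont (a :: l)).1 : ℤ) - r * q') + a * (-σ * ((cont (a :: l)).2 : ℤ) - r * q)
              := by
            simp only [cont]
            push_cast
            ring
          rw [e]
          exact h3

/-- two consecutive convergents with denominators up to `T` -/
theorem conv {M : ℕ} (hM : 2 ≤ M) {w : List ℕ} (hw : Letters M w) (T : ℕ) (hT : M ≤ T)
    (hTN : T < (cont w).1) (hne : w ≠ []) :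
    ∃ (α β : ℕ) (yα yβ : ℤ), 1 ≤ α ∧ α ≤ β ∧ β ≤ T ∧ Nat.Coprime α β ∧
        ((cont w).1 : ℤ) ∣ yα - (cont w).2 * α ∧ ((cont w).1 : ℤ) ∣ yβ - (cont w).2 * β ∧
        |yα| * T ≤ (M + 1) * (cont w).1 ∧ |yβ| * T ≤ (cont w).1 := by
  obtain ⟨a, l, rfl⟩ := List.exists_cons_of_ne_nil hne
  obtain ⟨ha1, haM⟩ := hw.head
  refine conv_aux hM (cont (a :: l)).1 (cont (a :: l)).2 l hw.tail 1 a 1 (by tauto) le_rfl ha1
    (by simp) ?_ ?_ ?_ T (by omega) hTN
  · simp [cont]
  · simp [cont]
  · refine ⟨-1, ?_⟩
    simp only [cont]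
    push_cast
    ring

end Pool.Agent.H45Littlewood
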